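import Mathlib
import Pool.Agent.H374R2.V.G

/-!
The gap principle of `Pool.Agent.H374R2.V.G` (Thue-Siegel principle by Pade approximation, for the
equation `U ^ q - a V ^ q = T`), with the conditions on the size replaced by the condition that
the heights are large compared with `q`.
-/

set_option autoImplicit false

namespace Pool.Agent.H42FC

open Finset Pool.Agent.H374R2.T Pool.Agent.H374R2.V
open Pool.Agent.H374R2.V.K2 (le_exp_root Uq_le Vq_le T_le small_T HH_pos)
open Pool.Agent.H374R2.V.G (pf_zero real_part cross_ne)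

/-- The height is large and `T` is at most `d ^ (100 y / 99)`. -/
structure Large (q d H y : ℕ) (T : ℤ) : Prop where
  h1000 : 1000 ≤ Real.log H
  hL : Real.log (16 * (q : ℝ) ^ 2) + 2 ≤ Real.log H / 100
  h3 : (99 / 100) * Real.log |(T : ℝ)| ≤ y * Real.log d

theorem yd {q d N j U V y : ℕ} {a T : ℤ} (L : Large q d (HH q a U V) y T)
    (S : Sol q d N j a U V y T) :
    (99 * (j : ℝ) / 5000) * Real.log (HH q a U V) ≤ y * Real.log d := by
  have h3 := L.h3
  have hH0 := K0.HH_pos S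
  have hHR : (0 : ℝ) < (HH q a U V : ℕ) := by exact_mod_cast hH0
  have hTabs : |(T : ℝ)| = (T.natAbs : ℝ) := by
    rw [Nat.cast_natAbs, Int.cast_abs]
  have h4 : (j : ℝ) * Real.log (HH q a U V) ≤ 50 * Real.log |(T : ℝ)| := by
    have : ((HH q a U V : ℕ) : ℝ) ^ j ≤ (T.natAbs : ℝ) ^ 50 := by exact_mod_cast S.lo
    have := Real.log_le_log (by positivity) this
    rw [Real.log_pow, Real.log_pow, ← hTabs] at this
    exact_mod_cast this
  linarith

theorem EE_low {q d N n j U V y U' V' y' : ℕ} {a T T' : ℤ} (hq : IsPrimePow q)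
    (hqd : Nat.Coprime q d) (hd0 : 0 < d) (L : Large q d (HH q a U V) y T)
    (L' : Large q d (HH q a U' V') y' T')
    (S : Sol q d N j a U V y T) (S' : Sol q d N j a U' V' y' T')
    (hroot : ∀ l : ℕ, l.Prime → l ∣ d → U * V' ≡ U' * V [MOD l])
    (hE : EE q n U V U' V' T ≠ 0) :
    (99 * (j : ℝ) / 5000) * min ((2 * n + 1) * Real.log (HH q a U V)) (Real.log (HH q a U' V')) ≤
      Real.log |((EE q n U V U' V' T : ℤ) : ℝ)| := by
  have hdR : (0 : ℝ) < d := by exact_mod_cast hd0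
  have hc : (0 : ℝ) ≤ 99 * (j : ℝ) / 5000 := by positivity
  have h1 := yd L S
  have h2 := yd L' S'
  set W : ℕ := min ((2 * n + 1) * y) y' with hW
  have hdvd := K1.EE_dvd (n := n) hq hqd S S' hroot (min_le_left ((2 * n + 1) * y) y')
    (min_le_right ((2 * n + 1) * y) y')
  have h3 : (W : ℝ) * Real.log d ≤ Real.log |((EE q n U V U' V' T : ℤ) : ℝ)| := by
    rw [← Real.log_pow]
    refine Real.log_le_log (by positivity) ?_
    have h4 : (d : ℤ) ^ W ≤ |EE q n U V U' V' T| :=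
      Int.le_of_dvd (abs_pos.2 hE) ((dvd_abs _ _).2 hdvd)
    exact_mod_cast h4
  refine le_trans ?_ h3
  rcases le_total ((2 * n + 1) * y) y' with h | h
  · have hWe : W = (2 * n + 1) * y := min_eq_left h
    rw [hWe]
    calc (99 * (j : ℝ) / 5000) * min ((2 * n + 1) * Real.log (HH q a U V))
          (Real.log (HH q a U' V'))
        ≤ (99 * (j : ℝ) / 5000) * ((2 * n + 1) * Real.log (HH q a U V)) :=
          mul_le_mul_of_nonneg_left (min_le_left _ _) hc
      _ = (2 * n + 1) * ((99 * (j : ℝ) / 5000) * Real.log (HH q a U V)) := by ring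
      _ ≤ (2 * n + 1) * (y * Real.log d) := mul_le_mul_of_nonneg_left h1 (by positivity)
      _ = _ := by push_cast; ring
  · have hWe : W = y' := min_eq_right h
    rw [hWe]
    exact (mul_le_mul_of_nonneg_left (min_le_right _ _) hc).trans h2

theorem EE_up {q d N n j U V y U' V' y' : ℕ} {a T T' : ℤ} (hq : IsPrimePow q) (hq3 : 3 ≤ q)
    (hh : 1000 ≤ Real.log (HH q a U V))
    (hh' : 1000 ≤ Real.log (HH q a U' V'))
    (S : Sol q d N j a U V y T) (S' : Sol q d N j a U' V' y' T')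
    (hE : EE q n U V U' V' T ≠ 0) :
    Real.log |((EE q n U V U' V' T : ℤ) : ℝ)| ≤ (n + 1) * (Real.log (16 * (q : ℝ) ^ 2) + 2) +
      n * Real.log (HH q a U V) + (Real.log (HH q a U V) + Real.log (HH q a U' V')) / q -
      (if j = 49 then 0 else 1 - ((j : ℝ) + 1) / 50) *
        min ((2 * n + 1) * Real.log (HH q a U V)) (Real.log (HH q a U' V')) := by
  have hq0 : 0 < q := by omega
  have hqr : (3 : ℝ) ≤ q := by exact_mod_cast hq3
  have hq0r : (0 : ℝ) < q := by linarith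
  set H : ℝ := (HH q a U V : ℝ) with hH
  set H' : ℝ := (HH q a U' V' : ℝ) with hH'
  have hH0 : 0 < H := by rw [hH]; exact_mod_cast HH_pos S
  have hH0' : 0 < H' := by rw [hH']; exact_mod_cast HH_pos S'
  set h : ℝ := Real.log H with hhdef
  set h' : ℝ := Real.log H' with hhdef'
  have hU := le_exp_root hq0 S.U0 (Uq_le S)
  have hV := le_exp_root hq0 S.V0 (Vq_le S)
  have hU' := le_exp_root hq0 S'.U0 (Uq_le S')
  have hV' := le_exp_root hq0 S'.V0 (Vq_le S')
  rw [← hH, ← hhdef] at hU hV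
  rw [← hH', ← hhdef'] at hU' hV'
  have hUpos : (0 : ℝ) < U := by exact_mod_cast S.U0
  have hVpos : (0 : ℝ) < V := by exact_mod_cast S.V0
  have hUpos' : (0 : ℝ) < U' := by exact_mod_cast S'.U0
  have hVpos' : (0 : ℝ) < V' := by exact_mod_cast S'.V0
  have hsum : Real.exp (h / q) * Real.exp (h' / q) = Real.exp ((h + h') / q) := by
    rw [← Real.exp_add, add_div]
  have hUV' : (U : ℝ) * V' ≤ Real.exp ((h + h') / q) := by
    rw [← hsum]
    exact mul_le_mul hU hV' hVpos'.le (Real.exp_pos _).le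
  have hU'V : (U' : ℝ) * V ≤ Real.exp ((h + h') / q) := by
    rw [← hsum, mul_comm (Real.exp (h / q))]
    exact mul_le_mul hU' hV hVpos.le (Real.exp_pos _).le
  have hUU' : (U : ℝ) * U' ≤ Real.exp ((h + h') / q) := by
    rw [← hsum]
    exact mul_le_mul hU hU' hUpos'.le (Real.exp_pos _).le
  have hEpos : 0 < |((EE q n U V U' V' T : ℤ) : ℝ)| := by
    rw [abs_pos]
    exact_mod_cast hE
  have hlog4 : Real.log 4 ≤ 14 / 10 := by
    have h : (4 : ℝ) = 2 ^ 2 := by norm_num
    rw [h, Real.log_pow]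
    have := Real.log_two_lt_d9
    push_cast
    linarith
  have hexp4 : Real.exp (Real.log 4) = 4 := Real.exp_log (by norm_num)
  have hl0 : 0 ≤ Real.log (16 * (q : ℝ) ^ 2) := Real.log_nonneg (by nlinarith)
  have hn0 : (0 : ℝ) ≤ n := Nat.cast_nonneg n
  have hexpH : Real.exp h = H := Real.exp_log hH0
  by_cases hj : j = 49
  · rw [if_pos hj, zero_mul, sub_zero]
    -- crude bound
    have hTT : |T| ≤ 2 * (HH q a U V : ℤ) := by
      have := T_le S
      have h2 : ((|T| : ℤ) : ℝ) ≤ ((2 * (HH q a U V : ℤ) : ℤ) : ℝ) := by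
        push_cast
        exact this
      exact_mod_cast h2
    have hXX : |(U : ℤ) ^ q| ≤ 2 * (HH q a U V : ℤ) := by
      have h1 : U ^ q ≤ HH q a U V := le_max_left _ _
      have h2 : ((U ^ q : ℕ) : ℤ) ≤ (HH q a U V : ℤ) := by exact_mod_cast h1
      rw [abs_of_nonneg (by positivity)]
      push_cast at h2
      have h3 : (0 : ℤ) ≤ (HH q a U V : ℤ) := by positivity
      linarith
    have hP := P2.pf_size (n := n) (s := 1) hq (Or.inl rfl) hXX hTT
    have hQ := P2.pf_size (n := n) (s := -1) hq (Or.inr rfl) hXX hTT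
    have hPr : |((pf q n 1 ((U : ℤ) ^ q) T : ℤ) : ℝ)| ≤ 2 * (8 * (q : ℝ) ^ 2) ^ n * (2 * H) ^ n := by
      have h2 : ((|pf q n 1 ((U : ℤ) ^ q) T| : ℤ) : ℝ) ≤
          ((2 * (8 * (q : ℤ) ^ 2) ^ n * (2 * (HH q a U V : ℤ)) ^ n : ℤ) : ℝ) := by exact_mod_cast hP
      push_cast at h2
      exact h2
    have hQr : |((pf q n (-1) ((U : ℤ) ^ q) T : ℤ) : ℝ)| ≤
        2 * (8 * (q : ℝ) ^ 2) ^ n * (2 * H) ^ n := by
      have h2 : ((|pf q n (-1) ((U : ℤ) ^ q) T| : ℤ) : ℝ) ≤
          ((2 * (8 * (q : ℤ) ^ 2) ^ n * (2 * (HH q a U V : ℤ)) ^ n : ℤ) : ℝ) := by exact_mod_cast hQ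
      push_cast at h2
      exact h2
    have hpow : 2 * (8 * (q : ℝ) ^ 2) ^ n * (2 * H) ^ n = 2 * ((16 * (q : ℝ) ^ 2) ^ n * H ^ n) := by
      rw [← mul_pow, mul_assoc, ← mul_pow]
      ring
    rw [hpow] at hPr hQr
    set B : ℝ := (16 * (q : ℝ) ^ 2) ^ n * H ^ n with hB
    have hB0 : 0 ≤ B := by positivity
    have hbound : |((EE q n U V U' V' T : ℤ) : ℝ)| ≤ 4 * Real.exp ((h + h') / q) * B := by
      have e1 : ((EE q n U V U' V' T : ℤ) : ℝ) = (U : ℝ) * V' * ((pf q n 1 ((U : ℤ) ^ q) T : ℤ) : ℝ) -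
          (U' : ℝ) * V * ((pf q n (-1) ((U : ℤ) ^ q) T : ℤ) : ℝ) := by
        unfold EE
        push_cast
        ring
      rw [e1]
      refine (abs_sub _ _).trans ?_
      rw [abs_mul ((U : ℝ) * V'), abs_mul ((U' : ℝ) * V),
        abs_of_nonneg (show (0 : ℝ) ≤ (U : ℝ) * V' by positivity),
        abs_of_nonneg (show (0 : ℝ) ≤ (U' : ℝ) * V by positivity)]
      have i1 := mul_le_mul hUV' hPr (abs_nonneg _) (Real.exp_pos _).le
      have i2 := mul_le_mul hU'V hQr (abs_nonneg _) (Real.exp_pos _).le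
      linarith
    have hBexp : B = Real.exp (n * Real.log (16 * (q : ℝ) ^ 2) + n * h) := by
      rw [Real.exp_add, ← Real.log_pow, ← Real.log_pow, Real.exp_log (by positivity),
        Real.exp_log (by positivity)]
    have htot : |((EE q n U V U' V' T : ℤ) : ℝ)| ≤
        Real.exp (Real.log 4 + (h + h') / q + (n * Real.log (16 * (q : ℝ) ^ 2) + n * h)) := by
      rw [Real.exp_add, Real.exp_add, ← hBexp, hexp4]
      exact hbound
    have hfin := (Real.log_le_log hEpos htot).trans_eq (Real.log_exp _)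
    nlinarith
  · rw [if_neg hj]
    have hj49 : j < 49 := by
      rcases S.up with h | h
      · exact absurd h hj
      · exact h.1
    obtain ⟨ha, h1, h2⟩ := small_T S hj49 hh
    obtain ⟨-, h1', h2'⟩ := small_T S' hj49 hh'
    rw [← hH, ← hhdef] at h2
    rw [← hH', ← hhdef'] at h2'
    set ρ : ℝ := 1 - ((j : ℝ) + 1) / 50 with hρ
    have hρ0 : 0 ≤ ρ := by
      have : (j : ℝ) + 1 ≤ 49 := by exact_mod_cast hj49
      rw [hρ]
      linarith
    have c1 : 3 * |T| ≤ (U : ℤ) ^ q := by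
      have h3 : ((3 * |T| : ℤ) : ℝ) ≤ (((U : ℤ) ^ q : ℤ) : ℝ) := by
        push_cast
        exact h1
      exact_mod_cast h3
    have c2 : 3 * |T'| ≤ (U' : ℤ) ^ q := by
      have h3 : ((3 * |T'| : ℤ) : ℝ) ≤ (((U' : ℤ) ^ q : ℤ) : ℝ) := by
        push_cast
        exact h1'
      exact_mod_cast h3
    have hreal := R2.EE_real (n := n) hq ha S.U0 S.V0 S'.U0 S'.V0 S.eq S'.eq c1 c2
    set m : ℝ := min ((2 * (n : ℝ) + 1) * h) h' with hm
    set E : ℝ := 3 / 10 * (2 * n + 1) - ρ * m with hEdef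
    have hmax : max (|(T' : ℝ)| / (U' : ℝ) ^ q) ((|(T : ℝ)| / (U : ℝ) ^ q) ^ (2 * n + 1)) ≤
        Real.exp E := by
      apply max_le
      · refine h2'.trans (Real.exp_le_exp.2 ?_)
        have : m ≤ h' := min_le_right _ _
        have h3 : ρ * m ≤ ρ * h' := mul_le_mul_of_nonneg_left this hρ0
        rw [hEdef]
        linarith
      · have h3 : (|(T : ℝ)| / (U : ℝ) ^ q) ^ (2 * n + 1) ≤
            (Real.exp (3 / 10 - ρ * h)) ^ (2 * n + 1) :=
          pow_le_pow_left₀ (by positivity) h2 _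
        refine h3.trans ?_
        rw [← Real.exp_nat_mul]
        refine Real.exp_le_exp.2 ?_
        have : m ≤ (2 * (n : ℝ) + 1) * h := min_le_left _ _
        have h4 : ρ * m ≤ ρ * ((2 * (n : ℝ) + 1) * h) := mul_le_mul_of_nonneg_left this hρ0
        rw [hEdef]
        push_cast
        linarith
    have hUqn : ((U : ℝ) ^ q) ^ n ≤ Real.exp (n * h) := by
      rw [Real.exp_nat_mul, hexpH]
      exact pow_le_pow_left₀ (by positivity) (Uq_le S) n
    have h8 : (8 * (q : ℝ) ^ 2) ^ n ≤ Real.exp (n * Real.log (16 * (q : ℝ) ^ 2)) := by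
      rw [Real.exp_nat_mul, Real.exp_log (by positivity)]
      exact pow_le_pow_left₀ (by positivity) (by nlinarith) n
    have htot : |((EE q n U V U' V' T : ℤ) : ℝ)| ≤
        Real.exp (Real.log 4 + n * Real.log (16 * (q : ℝ) ^ 2) + n * h + (h + h') / q + E) := by
      rw [Real.exp_add, Real.exp_add, Real.exp_add, Real.exp_add, hexp4]
      refine hreal.trans ?_
      gcongr
    have hfin := (Real.log_le_log hEpos htot).trans_eq (Real.log_exp _)
    rw [hEdef] at hfin
    nlinarith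

theorem gap {q d N j U V y U' V' y' : ℕ} {a T T' : ℤ} (hq : IsPrimePow q) (hq3 : 3 ≤ q)
    (hqd : Nat.Coprime q d) (hd0 : 0 < d) (LL : Large q d (HH q a U V) y T)
    (LL' : Large q d (HH q a U' V') y' T')
    (S : Sol q d N j a U V y T) (S' : Sol q d N j a U' V' y' T')
    (hroot : ∀ l : ℕ, l.Prime → l ∣ d → U * V' ≡ U' * V [MOD l])
    (hne : U ≠ U' ∨ V ≠ V') (hH : HH q a U V ≤ HH q a U' V') :
    (188 / 100) * Real.log (HH q a U V) ≤ Real.log (HH q a U' V') ∧
      Real.log (HH q a U' V') ≤ 15 * Real.log (HH q a U V) := by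
  have k1 := LL.h1000
  have k2 := LL.hL
  have hHpos : 0 < HH q a U V := by
    unfold HH
    exact lt_of_lt_of_le (pow_pos S.U0 q) (le_max_left _ _)
  have hh : Real.log (HH q a U V) ≤ Real.log (HH q a U' V') :=
    Real.log_le_log (by exact_mod_cast hHpos) (by exact_mod_cast hH)
  have hj : j ≤ 49 := by
    rcases S.up with h | h
    · omega
    · omega
  have hL : Real.log (16 * (q : ℝ) ^ 2) + 2 ≤ Real.log (HH q a U V) / 100 := k2
  have star : ∀ n : ℕ, EE q n U V U' V' T ≠ 0 →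
      (9702 / 10000) * min ((2 * n + 1) * Real.log (HH q a U V)) (Real.log (HH q a U' V')) ≤
        (n + 1) * (Real.log (HH q a U V) / 100) + n * Real.log (HH q a U V) +
          (Real.log (HH q a U V) + Real.log (HH q a U' V')) / 3 := by
    intro n hE
    exact real_part hq3 hj (by linarith) hh hL (EE_low hq hqd hd0 LL LL' S S' hroot hE)
      (EE_up hq hq3 LL.h1000 LL'.h1000 S S' hE)
  have hcross : U * V' ≠ U' * V := cross_ne S.U0 S.UV S'.UV hne
  generalize Real.log (HH q a U V) = h at *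
  generalize Real.log (HH q a U' V') = h' at *
  have h0 : 0 < h := by linarith
  constructor
  · have hE0 : EE q 0 U V U' V' T ≠ 0 := by
      unfold EE
      rw [pf_zero, pf_zero, mul_one, mul_one]
      intro h1
      apply hcross
      have : ((U * V' : ℕ) : ℤ) = ((U' * V : ℕ) : ℤ) := by linarith
      exact_mod_cast this
    have h1 := star 0 hE0
    have h2 : min ((2 * ((0 : ℕ) : ℝ) + 1) * h) h' = h := by
      rw [min_eq_left]
      · simp
      · simpa using hh
    rw [h2] at h1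
    simp only [Nat.cast_zero, zero_add, zero_mul, one_mul, add_zero] at h1
    linarith
  · obtain ⟨n0, hn1, hn2⟩ : ∃ n0 : ℕ, h' ≤ (2 * n0 + 1) * h ∧ 2 * n0 * h ≤ h' + h := by
      refine ⟨⌈(h' / h - 1) / 2⌉₊, ?_, ?_⟩
      · have h1 := Nat.le_ceil ((h' / h - 1) / 2)
        have h2 : h' / h ≤ 2 * (⌈(h' / h - 1) / 2⌉₊ : ℝ) + 1 := by linarith
        exact (div_le_iff₀ h0).mp h2
      · have h3 : 0 ≤ (h' / h - 1) / 2 := by
          have : 1 ≤ h' / h := (one_le_div h0).mpr hh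
          linarith
        have h1 := Nat.ceil_lt_add_one h3
        have h2 : 2 * (⌈(h' / h - 1) / 2⌉₊ : ℝ) ≤ h' / h + 1 := by linarith
        calc 2 * (⌈(h' / h - 1) / 2⌉₊ : ℝ) * h ≤ (h' / h + 1) * h :=
              mul_le_mul_of_nonneg_right h2 h0.le
          _ = h' + h := by field_simp
    obtain ⟨n, hn3, hn4, hE⟩ : ∃ n : ℕ, n0 ≤ n ∧ n ≤ n0 + 1 ∧ EE q n U V U' V' T ≠ 0 := by
      by_contra hcon
      push Not at hcon
      have e0 := hcon n0 le_rfl (by omega)
      have e1 := hcon (n0 + 1) (by omega) le_rfl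
      unfold EE at e0 e1
      apply P5.pf_ne (q := q) (n := n0) (X := (U : ℤ) ^ q) (T := T) hq S.T0
      set P0 := pf q n0 1 ((U : ℤ) ^ q) T
      set Q0 := pf q n0 (-1) ((U : ℤ) ^ q) T
      set P1 := pf q (n0 + 1) 1 ((U : ℤ) ^ q) T
      set Q1 := pf q (n0 + 1) (-1) ((U : ℤ) ^ q) T
      have hA : ((U * V' : ℕ) : ℤ) ≠ 0 := by
        exact_mod_cast (Nat.mul_pos S.U0 S'.V0).ne'
      have hB : ((U' * V : ℕ) : ℤ) ≠ 0 := by
        exact_mod_cast (Nat.mul_pos S'.U0 S.V0).ne'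
      have a0 : ((U * V' : ℕ) : ℤ) * P0 = ((U' * V : ℕ) : ℤ) * Q0 := by linarith
      have a1 : ((U * V' : ℕ) : ℤ) * P1 = ((U' * V : ℕ) : ℤ) * Q1 := by linarith
      apply mul_left_cancel₀ (mul_ne_zero hA hB)
      calc ((U * V' : ℕ) : ℤ) * ((U' * V : ℕ) : ℤ) * (P0 * Q1) =
          (((U * V' : ℕ) : ℤ) * P0) * (((U' * V : ℕ) : ℤ) * Q1) := by ring
        _ = (((U' * V : ℕ) : ℤ) * Q0) * (((U * V' : ℕ) : ℤ) * P1) := by rw [a0, a1]
        _ = ((U * V' : ℕ) : ℤ) * ((U' * V : ℕ) : ℤ) * (P1 * Q0) := by ring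
    have h1 := star n hE
    have hn3' : (n0 : ℝ) ≤ n := by exact_mod_cast hn3
    have hn4' : (n : ℝ) ≤ n0 + 1 := by exact_mod_cast hn4
    have h2 : min ((2 * (n : ℝ) + 1) * h) h' = h' := by
      rw [min_eq_right]
      refine hn1.trans ?_
      gcongr
    rw [h2] at h1
    have h3 : (n : ℝ) * h ≤ (n0 + 1) * h := mul_le_mul_of_nonneg_right hn4' h0.le
    have h4 : (n : ℝ) * h ≤ (h' + 3 * h) / 2 := by linarith
    have h5 : ((n : ℝ) + 1) * (h / 100) = (n * h + h) / 100 := by ring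
    rw [h5] at h1
    linarith

end Pool.Agent.H42FC
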