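import Mathlib
import Pool.Agent.H42FC.Gap
import Pool.Agent.H374R2.V.CV

/-!
The number of solutions of `U ^ q - s A ^ (q x + i) = ± B ^ y` where `d ∣ B ≤ d ^ (100 / 99)`, for
given `q`, `i`, `s`, `A`, `d`.
-/

set_option autoImplicit false

namespace Pool.Agent.H42FC

open Finset Pool.Agent.H374R2.T Pool.Agent.H374R2.V
open Pool.Agent.H374R2.V.CV (unit_dvd natAbs_T cls cls_le)

/-- One solution of `U ^ q - s A ^ (q x + i) = σ B ^ y` with `d ∣ B ≤ d ^ (100 / 99)` and a large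
height. -/
structure DD (q i d A : ℕ) (s : ℤ) (U x y B : ℕ) (σ : ℤ) : Prop where
  y0 : 0 < y
  U0 : 0 < U
  σ1 : σ = 1 ∨ σ = -1
  eq : (U : ℤ) ^ q - s * (A : ℤ) ^ (q * x + i) = σ * (B : ℤ) ^ y
  B0 : 0 < B
  Bd : B ^ 99 ≤ d ^ 100
  dB : d ∣ B
  cop : Nat.Coprime A B
  h1000 : 1000 ≤ Real.log (HH q (s * (A : ℤ) ^ i) U (A ^ x))
  hL : Real.log (16 * (q : ℝ) ^ 2) + 2 ≤ Real.log (HH q (s * (A : ℤ) ^ i) U (A ^ x)) / 100

theorem DD.prime_cond {q i d A : ℕ} {s σ : ℤ} {U x y B : ℕ} (hs : s = 1 ∨ s = -1)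
    (hq : 0 < q) (h : DD q i d A s U x y B σ) {p : ℕ} (hp : p.Prime) (hpU : p ∣ U)
    (hpAB : p ∣ A ^ (q * x + i) ∨ p ∣ B) : False := by
  have hσ := h.σ1
  have e1 : (p : ℤ) ∣ (U : ℤ) ^ q := by
    have : p ∣ U ^ q := dvd_pow hpU hq.ne'
    exact_mod_cast this
  have hcontra : p ∣ A → p ∣ B → False := fun h1 h2 =>
    hp.not_dvd_one (h.cop ▸ Nat.dvd_gcd h1 h2)
  rcases hpAB with h1 | h1
  · have e2 : (p : ℤ) ∣ (A : ℤ) ^ (q * x + i) := by exact_mod_cast h1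
    have e3 : (p : ℤ) ∣ σ * (B : ℤ) ^ y := by
      rw [← h.eq]
      exact dvd_sub e1 (e2.mul_left _)
    have e4 : p ∣ B ^ y := by exact_mod_cast unit_dvd hσ e3
    exact hcontra (hp.dvd_of_dvd_pow h1) (hp.dvd_of_dvd_pow e4)
  · have e3 : (p : ℤ) ∣ (B : ℤ) ^ y := by
      have : p ∣ B ^ y := dvd_pow h1 h.y0.ne'
      exact_mod_cast this
    have e4 : (p : ℤ) ∣ s * (A : ℤ) ^ (q * x + i) := by
      have : s * (A : ℤ) ^ (q * x + i) = (U : ℤ) ^ q - σ * (B : ℤ) ^ y := by rw [← h.eq]; ring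
      rw [this]
      exact dvd_sub e1 (e3.mul_left _)
    have e6 : p ∣ A ^ (q * x + i) := by exact_mod_cast unit_dvd hs e4
    exact hcontra (hp.dvd_of_dvd_pow e6) h1

theorem DD.sol {q i d A : ℕ} {s σ : ℤ} {U x y B : ℕ} {N : ℕ} (hs : s = 1 ∨ s = -1)
    (hq : 0 < q) (hA : 0 < A) (h : DD q i d A s U x y B σ) (hBN : B ≤ N) :
    Sol q d N (cls q (s * (A : ℤ) ^ i) U (A ^ x) (σ * (B : ℤ) ^ y)) (s * (A : ℤ) ^ i) U (A ^ x) y
      (σ * (B : ℤ) ^ y) := by
  have hσ := h.σ1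
  have hB0 := h.B0
  have hs0 : s ≠ 0 := by rcases hs with rfl | rfl <;> norm_num
  have hσ0 : σ ≠ 0 := by rcases hσ with rfl | rfl <;> norm_num
  have hAZ : (A : ℤ) ≠ 0 := by exact_mod_cast hA.ne'
  have hBZ : (B : ℤ) ≠ 0 := by exact_mod_cast hB0.ne'
  refine ⟨h.U0, by positivity, h.y0, mul_ne_zero hσ0 (pow_ne_zero _ hBZ),
    mul_ne_zero hs0 (pow_ne_zero _ hAZ), ?_, ?_, ?_, ?_, ?_, ?_, ?_, ?_⟩
  · push_cast
    rw [← h.eq, pow_add, pow_mul, ← pow_mul, mul_comm x q, pow_mul]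
    ring
  · exact (pow_dvd_pow_of_dvd (Int.natCast_dvd_natCast.mpr h.dB) y).mul_left _
  · rw [natAbs_T hσ]
    exact Nat.pow_le_pow_left hBN _
  · apply Nat.coprime_of_dvd
    intro p hp h2 h3
    apply h.prime_cond hs hq hp h2
    left
    have h4 : p ∣ A := hp.dvd_of_dvd_pow h3
    rcases Nat.eq_zero_or_pos x with h5 | h5
    · exfalso
      rw [h5, pow_zero] at h3
      exact hp.not_dvd_one h3
    · have : 0 < q * x := Nat.mul_pos hq h5
      exact dvd_pow h4 (by omega)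
  · apply Nat.coprime_of_dvd
    intro p hp h2 h3
    exact h.prime_cond hs hq hp h2 (Or.inr (h3.trans h.dB))
  · apply Nat.Coprime.pow_left
    exact Nat.Coprime.coprime_dvd_right h.dB h.cop
  · have := Nat.findGreatest_spec (P := fun j => HH q (s * (A : ℤ) ^ i) U (A ^ x) ^ j ≤
      (σ * (B : ℤ) ^ y).natAbs ^ 50) (m := 0) (n := 49) (by norm_num) (by
        rw [natAbs_T hσ, pow_zero]
        exact Nat.one_le_pow _ _ (by positivity))
    exact this
  · rcases Nat.lt_or_ge (cls q (s * (A : ℤ) ^ i) U (A ^ x) (σ * (B : ℤ) ^ y)) 49 with h1 | h1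
    · right
      refine ⟨h1, ?_⟩
      have := Nat.findGreatest_is_greatest (P := fun j => HH q (s * (A : ℤ) ^ i) U (A ^ x) ^ j ≤
        (σ * (B : ℤ) ^ y).natAbs ^ 50) (n := 49)
        (k := cls q (s * (A : ℤ) ^ i) U (A ^ x) (σ * (B : ℤ) ^ y) + 1) (Nat.lt_succ_self _) (by omega)
      exact (not_le.mp this).le
    · left
      exact le_antisymm (cls_le _ _ _ _ _) h1

theorem DD.large {q i d A : ℕ} {s σ : ℤ} {U x y B : ℕ} (h : DD q i d A s U x y B σ) :
    Large q d (HH q (s * (A : ℤ) ^ i) U (A ^ x)) y (σ * (B : ℤ) ^ y) := by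
  refine ⟨h.h1000, h.hL, ?_⟩
  have hB0 : (0 : ℝ) < B := by exact_mod_cast h.B0
  have hd0 : (0 : ℝ) < d := by
    have h1 := h.Bd
    have h2 : 0 < d := by
      rcases Nat.eq_zero_or_pos d with h3 | h3
      · rw [h3, zero_pow (by norm_num)] at h1
        have : 0 < B ^ 99 := Nat.pow_pos h.B0
        omega
      · exact h3
    exact_mod_cast h2
  have e1 : |((σ * (B : ℤ) ^ y : ℤ) : ℝ)| = (B : ℝ) ^ y := by
    rcases h.σ1 with rfl | rfl
    · push_cast
      rw [one_mul, abs_of_nonneg (by positivity)]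
    · push_cast
      rw [neg_one_mul, abs_neg, abs_of_nonneg (by positivity)]
  rw [e1, Real.log_pow]
  have h1 : 99 * Real.log B ≤ 100 * Real.log d := by
    have : (B : ℝ) ^ 99 ≤ (d : ℝ) ^ 100 := by exact_mod_cast h.Bd
    have := Real.log_le_log (by positivity) this
    rw [Real.log_pow, Real.log_pow] at this
    exact_mod_cast this
  have hy : (0 : ℝ) ≤ y := by positivity
  nlinarith [mul_le_mul_of_nonneg_left h1 hy]

/-- The number of the `q`-th roots modulo a prime `l` of a number prime to `l`. -/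
theorem roots_gcd {l q : ℕ} (hl : l.Prime) (hq : 0 < q) (a : ZMod l) (ha : a ≠ 0) :
    {u : ZMod l | u ^ q = a}.ncard ≤ Nat.gcd q (l - 1) := by
  classical
  have : Fact l.Prime := ⟨hl⟩
  rcases Set.eq_empty_or_nonempty {u : ZMod l | u ^ q = a} with h | ⟨u, hu⟩
  · rw [h, Set.ncard_empty]
    exact Nat.zero_le _
  · have hu' : u ^ q = a := hu
    have hu0 : u ≠ 0 := by
      rintro rfl
      rw [zero_pow hq.ne'] at hu'
      exact ha hu'.symm
    have hsub : {v : ZMod l | v ^ q = a} ⊆ {v : ZMod l | v ^ (Nat.gcd q (l - 1)) =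
        u ^ (Nat.gcd q (l - 1))} := by
      intro v hv
      have hv' : v ^ q = a := hv
      have hv0 : v ≠ 0 := by
        rintro rfl
        rw [zero_pow hq.ne'] at hv'
        exact ha hv'.symm
      have h1 : (v / u) ^ q = 1 := by rw [div_pow, hv', hu', div_self ha]
      have h2 : (v / u) ^ (l - 1) = 1 := ZMod.pow_card_sub_one_eq_one (div_ne_zero hv0 hu0)
      have h3 : (v / u) ^ (Nat.gcd q (l - 1)) = 1 := pow_gcd_eq_one.2 ⟨h1, h2⟩
      rw [div_pow, div_eq_one_iff_eq (pow_ne_zero _ hu0)] at h3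
      exact h3
    refine (Set.ncard_le_ncard hsub (Set.toFinite _)).trans ?_
    exact Pool.Agent.H374R2.Fc.roots_le hl (Nat.gcd_pos_of_pos_left _ hq) _

theorem Z_card {q i d A : ℕ} {s : ℤ} (hs : s = 1 ∨ s = -1) (hq : IsPrimePow q) (hq3 : 3 ≤ q)
    (hd0 : 0 < d) (hqd : Nat.Coprime q d) (hA : 0 < A) (F : Finset (ℕ × ℕ))
    (hF : ∀ z ∈ F, ∃ (x y B : ℕ) (σ : ℤ), z.2 = A ^ x ∧ DD q i d A s z.1 x y B σ) :
    F.card ≤ 250 * ∏ l ∈ d.primeFactors, Nat.gcd q (l - 1) := by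
  classical
  rcases F.eq_empty_or_nonempty with hF0 | ⟨z₀, hz₀⟩
  · rw [hF0, Finset.card_empty]
    exact Nat.zero_le _
  have hq0 : 0 < q := by omega
  have hpr : ∀ l : d.primeFactors, ((l : ℕ)).Prime := fun l => Nat.prime_of_mem_primeFactors l.2
  have hdv : ∀ l : d.primeFactors, (l : ℕ) ∣ d := fun l => Nat.dvd_of_mem_primeFactors l.2
  have : ∀ l : d.primeFactors, NeZero (l : ℕ) := fun l => ⟨(hpr l).ne_zero⟩
  have : ∀ l : d.primeFactors, Fact ((l : ℕ)).Prime := fun l => ⟨hpr l⟩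
  let T : Finset (∀ l : d.primeFactors, ZMod (l : ℕ)) :=
    Fintype.piFinset (fun l => univ.filter (fun u : ZMod (l : ℕ) =>
      u ^ q = ((s * (A : ℤ) ^ i : ℤ) : ZMod (l : ℕ))))
  have hA0 : ∀ l : d.primeFactors, ((s * (A : ℤ) ^ i : ℤ) : ZMod (l : ℕ)) ≠ 0 := by
    intro l h0
    obtain ⟨x, y, B, σ, -, hD⟩ := hF z₀ hz₀
    rw [ZMod.intCast_zmod_eq_zero_iff_dvd] at h0
    have h1 : ((l : ℕ) : ℤ) ∣ ((A ^ i : ℕ) : ℤ) := by
      push_cast
      exact unit_dvd hs h0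
    have h2 : (l : ℕ) ∣ A := (hpr l).dvd_of_dvd_pow (Int.natCast_dvd_natCast.1 h1)
    exact (hpr l).not_dvd_one (hD.cop ▸ Nat.dvd_gcd h2 ((hdv l).trans hD.dB))
  have hT : T.card ≤ ∏ l ∈ d.primeFactors, Nat.gcd q (l - 1) := by
    rw [Fintype.card_piFinset]
    calc ∏ l : d.primeFactors, (univ.filter (fun u : ZMod (l : ℕ) =>
          u ^ q = ((s * (A : ℤ) ^ i : ℤ) : ZMod (l : ℕ)))).card
        ≤ ∏ l : d.primeFactors, Nat.gcd q ((l : ℕ) - 1) := by
          apply Finset.prod_le_prod'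
          intro l _
          have h1 := roots_gcd (hpr l) hq0 ((s * (A : ℤ) ^ i : ℤ) : ZMod (l : ℕ)) (hA0 l)
          rw [← Set.ncard_coe_finset]
          refine le_trans (le_of_eq ?_) h1
          congr 1
          ext u
          simp
      _ = ∏ l ∈ d.primeFactors, Nat.gcd q (l - 1) :=
          Finset.prod_coe_sort d.primeFactors (fun l => Nat.gcd q (l - 1))
  -- choice of the data
  have hch : ∀ z : ℕ × ℕ, ∃ t : ℕ × ℕ × ℕ × ℤ, z ∈ F →
      z.2 = A ^ t.1 ∧ DD q i d A s z.1 t.1 t.2.1 t.2.2.1 t.2.2.2 := by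
    intro z
    by_cases h : z ∈ F
    · obtain ⟨x, y, B, σ, h1, h2⟩ := hF z h
      exact ⟨(x, y, B, σ), fun _ => ⟨h1, h2⟩⟩
    · exact ⟨(0, 0, 0, 0), fun h' => absurd h' h⟩
  choose t ht using hch
  set N : ℕ := ∑ z ∈ F, (t z).2.2.1 with hN
  have hBN : ∀ z ∈ F, (t z).2.2.1 ≤ N := fun z hz =>
    Finset.single_le_sum (f := fun z => (t z).2.2.1) (fun _ _ => Nat.zero_le _) hz
  have hAl : ∀ z ∈ F, ∀ l : d.primeFactors, (A : ZMod (l : ℕ)) ≠ 0 := by
    intro z hz l h0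
    rw [ZMod.natCast_eq_zero_iff] at h0
    exact (hpr l).not_dvd_one ((ht z hz).2.cop ▸ Nat.dvd_gcd h0 ((hdv l).trans (ht z hz).2.dB))
  set a : ℤ := s * (A : ℤ) ^ i with ha
  let TT : ℕ × ℕ → ℤ := fun z => (t z).2.2.2 * ((t z).2.2.1 : ℤ) ^ (t z).2.1
  let J : ℕ × ℕ → ℕ := fun z => cls q a z.1 (A ^ (t z).1) (TT z)
  let Hh : ℕ × ℕ → ℕ := fun z => HH q a z.1 (A ^ (t z).1)
  have hsol : ∀ z ∈ F, Sol q d N (J z) a z.1 (A ^ (t z).1) (t z).2.1 (TT z) :=
    fun z hz => (ht z hz).2.sol hs hq0 hA (hBN z hz)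
  have hlar : ∀ z ∈ F, Large q d (Hh z) (t z).2.1 (TT z) := fun z hz => (ht z hz).2.large
  let Φ : ℕ × ℕ → (∀ l : d.primeFactors, ZMod (l : ℕ)) × ℕ := fun z =>
    (fun l : d.primeFactors => (z.1 : ZMod (l : ℕ)) * ((A : ZMod (l : ℕ)) ^ (t z).1)⁻¹, J z)
  have himg : F.image Φ ⊆ T ×ˢ Finset.range 50 := by
    intro w hw
    rw [Finset.mem_image] at hw
    obtain ⟨z, hz, rfl⟩ := hw
    rw [Finset.mem_product]
    constructor
    · simp only [Φ]
      rw [Fintype.mem_piFinset]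
      intro l
      rw [Finset.mem_filter]
      refine ⟨Finset.mem_univ _, ?_⟩
      have hD := (ht z hz).2
      have h1 := congrArg (fun z : ℤ => (z : ZMod (l : ℕ))) hD.eq
      have h3 : ((t z).2.2.1 : ZMod (l : ℕ)) = 0 :=
        (ZMod.natCast_eq_zero_iff _ _).mpr ((hdv l).trans hD.dB)
      push_cast at h1 ⊢
      rw [h3, zero_pow hD.y0.ne', mul_zero, sub_eq_zero] at h1
      have h4 : (A : ZMod (l : ℕ)) ^ (t z).1 ≠ 0 := pow_ne_zero _ (hAl z hz l)
      rw [mul_pow, inv_pow, h1, pow_add, ← pow_mul, mul_comm (t z).1 q]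
      have h5 : (A : ZMod (l : ℕ)) ^ (q * (t z).1) ≠ 0 := pow_ne_zero _ (hAl z hz l)
      field_simp
    · simp only [Φ, J, Finset.mem_range]
      have := cls_le q a z.1 (A ^ (t z).1) (TT z)
      omega
  have hfib : ∀ w ∈ F.image Φ, (F.filter (fun z => Φ z = w)).card ≤ 5 := by
    intro w _
    apply CH.chain _ (fun z => Real.log (Hh z))
    · intro z hz
      rw [Finset.mem_filter] at hz
      have := (hlar z hz.1).h1000
      linarith
    · intro z hz z' hz' hne hle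
      rw [Finset.mem_filter] at hz hz'
      have hS := hsol z hz.1
      have hS' := hsol z' hz'.1
      have hBB : Φ z = Φ z' := hz.2.trans hz'.2.symm
      have hJ : J z' = J z := (congrArg Prod.snd hBB).symm
      rw [hJ] at hS'
      have hroot : ∀ l : ℕ, l.Prime → l ∣ d →
          z.1 * A ^ (t z').1 ≡ z'.1 * A ^ (t z).1 [MOD l] := by
        intro l hl hld
        have hmem : l ∈ d.primeFactors := Nat.mem_primeFactors.mpr ⟨hl, hld, hd0.ne'⟩
        have h1 := congrFun (congrArg Prod.fst hBB) ⟨l, hmem⟩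
        simp only [Φ] at h1
        have h2 : (A : ZMod l) ≠ 0 := hAl z hz.1 ⟨l, hmem⟩
        have : Fact l.Prime := ⟨hl⟩
        have h3 : (A : ZMod l) ^ (t z).1 ≠ 0 := pow_ne_zero _ h2
        have h4 : (A : ZMod l) ^ (t z').1 ≠ 0 := pow_ne_zero _ h2
        rw [← ZMod.natCast_eq_natCast_iff]
        push_cast
        field_simp at h1
        rw [h1]
        ring
      have hne' : z.1 ≠ z'.1 ∨ A ^ (t z).1 ≠ A ^ (t z').1 := by
        by_contra hcon
        push Not at hcon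
        apply hne
        rw [← (ht z hz.1).1, ← (ht z' hz'.1).1] at hcon
        exact Prod.ext hcon.1 hcon.2
      have hHH : Hh z ≤ Hh z' := by
        have h1 : (0 : ℝ) < Hh z := by exact_mod_cast CV.HH_pos (ht z hz.1).2.U0
        have h2 : (0 : ℝ) < Hh z' := by exact_mod_cast CV.HH_pos (ht z' hz'.1).2.U0
        have h3 := (Real.log_le_log_iff h1 h2).mp hle
        exact_mod_cast h3
      exact gap hq hq3 hqd hd0 (hlar z hz.1) (hlar z' hz'.1) hS hS' hroot hne' hHH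
  have hcard := Finset.card_le_mul_card_image F 5 hfib
  have h2 : (F.image Φ).card ≤ (∏ l ∈ d.primeFactors, Nat.gcd q (l - 1)) * 50 := by
    refine (Finset.card_le_card himg).trans ?_
    rw [Finset.card_product, Finset.card_range]
    exact Nat.mul_le_mul_right _ hT
  calc F.card ≤ 5 * (F.image Φ).card := hcard
    _ ≤ 5 * ((∏ l ∈ d.primeFactors, Nat.gcd q (l - 1)) * 50) := Nat.mul_le_mul_left _ h2
    _ = 250 * ∏ l ∈ d.primeFactors, Nat.gcd q (l - 1) := by ring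

end Pool.Agent.H42FC
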