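import Mathlib
import Pool.Agent.H42FC.Count

/-!
Two given bases and one given exponent `k`: the number of pairs of exponents is at most
`10 ^ 6 * k ^ 2 + 500 * k * ∏ gcd (k, p - 1)`, the product being over the primes `p` dividing `a b`.
-/

set_option autoImplicit false

namespace Pool.Agent.H42FC

open Finset Pool.Agent.H374R2.T Pool.Agent.H374R2.V

/-- The pairs of exponents `(x, y)` for which one of `a ^ x + b ^ y`, `b ^ y - a ^ x`, `a ^ x - b ^ y`
is the `q`-th power of a positive integer. -/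
def Rep (a b q : ℕ) : Set (ℕ × ℕ) :=
  {p | 0 < p.1 ∧ 0 < p.2 ∧ ∃ U : ℕ, 0 < U ∧
    (a ^ p.1 + b ^ p.2 = U ^ q ∨ a ^ p.1 + U ^ q = b ^ p.2 ∨ b ^ p.2 + U ^ q = a ^ p.1)}

theorem rep_data {a b q : ℕ} {p : ℕ × ℕ} (h : p ∈ Rep a b q) : ∃ (U : ℕ) (s σ : ℤ), 0 < U ∧
    (s = 1 ∨ s = -1) ∧ (σ = 1 ∨ σ = -1) ∧ (U : ℤ) ^ q - s * (a : ℤ) ^ p.1 = σ * (b : ℤ) ^ p.2 := by
  obtain ⟨_, _, U, hU, h | h | h⟩ := h
  · have h' : (a : ℤ) ^ p.1 + (b : ℤ) ^ p.2 = (U : ℤ) ^ q := by exact_mod_cast h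
    exact ⟨U, 1, 1, hU, Or.inl rfl, Or.inl rfl, by rw [← h']; ring⟩
  · have h' : (a : ℤ) ^ p.1 + (U : ℤ) ^ q = (b : ℤ) ^ p.2 := by exact_mod_cast h
    exact ⟨U, -1, 1, hU, Or.inr rfl, Or.inl rfl, by rw [← h']; ring⟩
  · have h' : (b : ℤ) ^ p.2 + (U : ℤ) ^ q = (a : ℤ) ^ p.1 := by exact_mod_cast h
    exact ⟨U, 1, -1, hU, Or.inl rfl, Or.inr rfl, by rw [← h']; ring⟩

theorem rep_swap {a b q : ℕ} {p : ℕ × ℕ} (h : p ∈ Rep a b q) : p.swap ∈ Rep b a q := by
  obtain ⟨h1, h2, U, hU, h | h | h⟩ := h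
  · exact ⟨h2, h1, U, hU, Or.inl (by rw [Prod.fst_swap, Prod.snd_swap, add_comm]; exact h)⟩
  · exact ⟨h2, h1, U, hU, Or.inr (Or.inr (by rw [Prod.fst_swap, Prod.snd_swap]; exact h))⟩
  · exact ⟨h2, h1, U, hU, Or.inr (Or.inl (by rw [Prod.fst_swap, Prod.snd_swap]; exact h))⟩

/-- the lower bound for the logarithm of the height -/
noncomputable def Lam (q : ℕ) : ℝ := max 1000 (100 * (Real.log (16 * (q : ℝ) ^ 2) + 2))

theorem lam_le {q : ℕ} (hq3 : 3 ≤ q) : Lam q ≤ 400 * q := by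
  have hq : (3 : ℝ) ≤ q := by exact_mod_cast hq3
  unfold Lam
  apply max_le
  · linarith
  · have h1 : Real.log (16 * (q : ℝ) ^ 2) = 4 * Real.log 2 + 2 * Real.log q := by
      rw [Real.log_mul (by norm_num) (by positivity), Real.log_pow]
      have : (16 : ℝ) = 2 ^ 4 := by norm_num
      rw [this, Real.log_pow]
      norm_num
    have h2 := Real.log_two_lt_d9
    have h3 := Real.log_le_sub_one_of_pos (show (0 : ℝ) < q by linarith)
    rw [h1]
    linarith

theorem HH_ge {q : ℕ} {a U x : ℕ} {s : ℤ} (hs : s = 1 ∨ s = -1) :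
    a ^ x ≤ HH q (s * (a : ℤ) ^ (x % q)) U (a ^ (x / q)) := by
  unfold HH
  refine le_trans (le_of_eq ?_) (le_max_right _ _)
  have h1 : (s * (a : ℤ) ^ (x % q)).natAbs = a ^ (x % q) := by
    rcases hs with rfl | rfl
    · rw [one_mul, Int.natAbs_pow, Int.natAbs_natCast]
    · rw [neg_one_mul, Int.natAbs_neg, Int.natAbs_pow, Int.natAbs_natCast]
  rw [h1, ← pow_mul, ← pow_add]
  congr 1
  have := Nat.mod_add_div x q
  rw [mul_comm] at this
  exact this.symm

theorem T_le_HH {q : ℕ} {a b U x y : ℕ} {s σ : ℤ} (hs : s = 1 ∨ s = -1) (hσ : σ = 1 ∨ σ = -1)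
    (h : (U : ℤ) ^ q - s * (a : ℤ) ^ x = σ * (b : ℤ) ^ y) :
    b ^ y ≤ 2 * HH q (s * (a : ℤ) ^ (x % q)) U (a ^ (x / q)) := by
  have h1 := HH_ge (q := q) (a := a) (U := U) (x := x) hs
  have h2 : U ^ q ≤ HH q (s * (a : ℤ) ^ (x % q)) U (a ^ (x / q)) := le_max_left _ _
  have h3 : b ^ y ≤ U ^ q + a ^ x := by
    have e1 := congrArg Int.natAbs h
    rw [CV.natAbs_T hσ] at e1
    rw [← e1]
    refine (Int.natAbs_sub_le _ _).trans (le_of_eq ?_)
    congr 1
    rcases hs with rfl | rfl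
    · rw [one_mul, Int.natAbs_pow, Int.natAbs_natCast]
    · rw [neg_one_mul, Int.natAbs_neg, Int.natAbs_pow, Int.natAbs_natCast]
  omega

theorem exp_lt {a x H : ℕ} {L : ℝ} (ha : 2 ≤ a) (_hH : 0 < H) (h1 : a ^ x ≤ H) (h2 : Real.log H < L) :
    (x : ℝ) < 2 * L := by
  have h3 : (2 : ℝ) ^ x ≤ H := by
    have h4 : 2 ^ x ≤ a ^ x := Nat.pow_le_pow_left ha x
    exact_mod_cast h4.trans h1
  have h5 := Real.log_le_log (by positivity) h3
  rw [Real.log_pow] at h5
  have h6 := Real.log_two_gt_d9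
  have h7 : (x : ℝ) * (1 / 2) ≤ x * Real.log 2 := mul_le_mul_of_nonneg_left (by linarith) (by positivity)
  linarith

/-- the number of the `k`-th roots of unity modulo the radical of `n` -/
def GG (k n : ℕ) : ℕ := ∏ p ∈ n.primeFactors, Nat.gcd k (p - 1)

theorem GG_mono {k n k' n' : ℕ} (hk' : 0 < k') (hn' : n' ≠ 0) (hk : k ∣ k') (hn : n ∣ n') :
    GG k n ≤ GG k' n' := by
  unfold GG
  calc ∏ p ∈ n.primeFactors, Nat.gcd k (p - 1) ≤ ∏ p ∈ n.primeFactors, Nat.gcd k' (p - 1) := by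
        apply Finset.prod_le_prod'
        intro p _
        exact Nat.le_of_dvd (Nat.gcd_pos_of_pos_left _ hk') (Nat.gcd_dvd_gcd_of_dvd_left _ hk)
    _ ≤ ∏ p ∈ n'.primeFactors, Nat.gcd k' (p - 1) := by
        apply Finset.prod_le_prod_of_subset_of_one_le' (Nat.primeFactors_mono hn hn')
        intro p _ _
        exact Nat.gcd_pos_of_pos_left _ hk'

/-- The number of the pairs of exponents, if `q` is prime to `b`. -/
theorem rep_card_cop {a b q : ℕ} (ha : 2 ≤ a) (hb : 2 ≤ b) (hab : Nat.Coprime a b)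
    (hq : IsPrimePow q) (hq3 : 3 ≤ q) (hqb : Nat.Coprime q b) (F : Finset (ℕ × ℕ))
    (hF : ∀ p ∈ F, p ∈ Rep a b q) :
    F.card ≤ 500 * q * GG q b + 10 ^ 6 * q ^ 2 := by
  classical
  have hq0 : 0 < q := by omega
  have hqR : (3 : ℝ) ≤ q := by exact_mod_cast hq3
  -- the data
  have hch : ∀ p : ℕ × ℕ, ∃ t : ℕ × ℤ × ℤ, p ∈ F → 0 < t.1 ∧ (t.2.1 = 1 ∨ t.2.1 = -1) ∧
      (t.2.2 = 1 ∨ t.2.2 = -1) ∧ (t.1 : ℤ) ^ q - t.2.1 * (a : ℤ) ^ p.1 = t.2.2 * (b : ℤ) ^ p.2 := by
    intro p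
    by_cases h : p ∈ F
    · obtain ⟨U, s, σ, h1, h2, h3, h4⟩ := rep_data (hF p h)
      exact ⟨(U, s, σ), fun _ => ⟨h1, h2, h3, h4⟩⟩
    · exact ⟨(0, 0, 0), fun h' => absurd h' h⟩
  choose t ht using hch
  let Hh : ℕ × ℕ → ℕ := fun p => HH q ((t p).2.1 * (a : ℤ) ^ (p.1 % q)) (t p).1 (a ^ (p.1 / q))
  have hpos : ∀ p ∈ F, 0 < Hh p := fun p hp => CV.HH_pos (ht p hp).1
  -- small heights
  set F2 := F.filter (fun p => Real.log (Hh p) < Lam q) with hF2
  set F1 := F.filter (fun p => ¬ Real.log (Hh p) < Lam q) with hF1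
  have hsplit : F2.card + F1.card = F.card := Finset.card_filter_add_card_filter_not _
  have hF2c : F2.card ≤ 10 ^ 6 * q ^ 2 := by
    have hsub : F2 ⊆ Finset.range (800 * q) ×ˢ Finset.range (800 * q + 2) := by
      intro p hp
      rw [hF2, Finset.mem_filter] at hp
      obtain ⟨hp1, hp2⟩ := hp
      obtain ⟨h1, h2, h3, h4⟩ := ht p hp1
      have h5 := lam_le hq3
      rw [Finset.mem_product, Finset.mem_range, Finset.mem_range]
      constructor
      · have h6 := exp_lt ha (hpos p hp1) (HH_ge (q := q) (U := (t p).1) h2) hp2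
        have h7 : (p.1 : ℝ) < ((800 * q : ℕ) : ℝ) := by push_cast; linarith
        exact_mod_cast h7
      · have h6 := T_le_HH h2 h3 h4
        have h8 : Real.log ((2 * Hh p : ℕ) : ℝ) < Lam q + 1 := by
          have h9 : (0 : ℝ) < Hh p := by exact_mod_cast hpos p hp1
          push_cast
          rw [Real.log_mul (by norm_num) h9.ne']
          have := Real.log_two_lt_d9
          linarith
        have h9 := exp_lt hb (Nat.mul_pos two_pos (hpos p hp1)) h6 h8
        have h7 : (p.2 : ℝ) < ((800 * q + 2 : ℕ) : ℝ) := by push_cast; linarith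
        exact_mod_cast h7
    refine (Finset.card_le_card hsub).trans ?_
    rw [Finset.card_product, Finset.card_range, Finset.card_range]
    nlinarith
  -- large heights
  have hF1c : F1.card ≤ 500 * q * GG q b := by
    set D : Finset (ℤ × ℕ) := ({1, -1} : Finset ℤ) ×ˢ Finset.range q with hD
    have hDc : D.card = 2 * q := by
      rw [hD, Finset.card_product, Finset.card_range]
      rfl
    let g : ℕ × ℕ → ℤ × ℕ := fun p => ((t p).2.1, p.1 % q)
    have hmaps : ∀ p ∈ F1, g p ∈ D := by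
      intro p hp
      rw [hF1, Finset.mem_filter] at hp
      obtain ⟨h1, h2, h3, h4⟩ := ht p hp.1
      rw [hD, Finset.mem_product]
      refine ⟨?_, Finset.mem_range.2 (Nat.mod_lt _ hq0)⟩
      simp only [g, Finset.mem_insert, Finset.mem_singleton]
      exact h2
    have hfib : ∀ w ∈ D, (F1.filter (fun p => g p = w)).card ≤ 250 * GG q b := by
      rintro ⟨s, i⟩ hw
      rw [hD, Finset.mem_product] at hw
      simp only [Finset.mem_insert, Finset.mem_singleton] at hw
      have hinj : Set.InjOn (fun p : ℕ × ℕ => ((t p).1, a ^ (p.1 / q)))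
          (F1.filter (fun p => g p = (s, i)) : Finset (ℕ × ℕ)) := by
        intro p hp p' hp' he
        rw [Finset.mem_coe, Finset.mem_filter, hF1, Finset.mem_filter] at hp hp'
        obtain ⟨⟨hp1, -⟩, hp3⟩ := hp
        obtain ⟨⟨hp1', -⟩, hp3'⟩ := hp'
        obtain ⟨h1, h2, h3, h4⟩ := ht p hp1
        obtain ⟨h1', h2', h3', h4'⟩ := ht p' hp1'
        simp only [g, Prod.mk.injEq] at hp3 hp3'
        simp only [Prod.mk.injEq] at he
        have e1 : p.1 / q = p'.1 / q := Nat.pow_right_injective ha he.2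
        have e2 : p.1 = p'.1 := by
          have m1 := Nat.mod_add_div p.1 q
          have m2 := Nat.mod_add_div p'.1 q
          rw [hp3.2] at m1
          rw [hp3'.2] at m2
          rw [← m1, ← m2, e1]
        have e3 : p.2 = p'.2 := by
          rw [he.1, hp3.1, e2] at h4
          rw [hp3'.1] at h4'
          rw [h4'] at h4
          have e4 := congrArg Int.natAbs h4
          rw [CV.natAbs_T h3, CV.natAbs_T h3'] at e4
          exact (Nat.pow_right_injective hb e4).symm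
        exact Prod.ext e2 e3
      rw [← Finset.card_image_of_injOn hinj]
      apply Z_card (i := i) (s := s) hw.1 hq hq3 (by omega) hqb (show 0 < a by omega)
      intro z hz
      rw [Finset.mem_image] at hz
      obtain ⟨p, hp, rfl⟩ := hz
      rw [Finset.mem_filter, hF1, Finset.mem_filter] at hp
      obtain ⟨⟨hp1, hp2⟩, hp3⟩ := hp
      obtain ⟨h1, h2, h3, h4⟩ := ht p hp1
      simp only [g, Prod.mk.injEq] at hp3
      refine ⟨p.1 / q, p.2, b, (t p).2.2, rfl, ?_⟩
      have hp2' : Lam q ≤ Real.log (Hh p) := not_lt.1 hp2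
      simp only [Hh] at hp2'
      rw [hp3.1, hp3.2] at hp2'
      refine ⟨(hF p hp1).2.1, h1, h3, ?_, by omega, ?_, dvd_rfl, hab, ?_, ?_⟩
      · have m1 := Nat.mod_add_div p.1 q
        rw [hp3.2, add_comm] at m1
        rw [m1, ← hp3.1]
        exact h4
      · exact Nat.pow_le_pow_right (by omega) (by norm_num)
      · exact (le_max_left _ _).trans hp2'
      · have := (le_max_right _ _).trans hp2'
        linarith
    have h := Finset.card_le_mul_card_image_of_maps_to hmaps (250 * GG q b) hfib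
    rw [hDc] at h
    calc F1.card ≤ 250 * GG q b * (2 * q) := h
      _ = 500 * q * GG q b := by ring
  omega

theorem omega_pos {a b : ℕ} (ha : 2 ≤ a) (hb : 2 ≤ b) : 1 ≤ (a * b).primeFactors.card := by
  rw [Nat.succ_le_iff, Finset.card_pos, Nat.nonempty_primeFactors]
  nlinarith

/-- **Two given bases and a given prime power exponent**: the number of pairs of exponents. -/
theorem rep_card {a b q : ℕ} (ha : 2 ≤ a) (hb : 2 ≤ b) (hab : Nat.Coprime a b)
    (hq : IsPrimePow q) (hq3 : 3 ≤ q) :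
    (Rep a b q).Finite ∧ (Rep a b q).ncard ≤ 10 ^ 6 * q ^ 2 + 500 * q * GG q (a * b) := by
  classical
  have hq1 : 0 < q := by omega
  have key : ∀ F : Finset (ℕ × ℕ), (∀ p ∈ F, p ∈ Rep a b q) →
      F.card ≤ 10 ^ 6 * q ^ 2 + 500 * q * GG q (a * b) := by
    intro F hF
    have hab0 : a * b ≠ 0 := by positivity
    obtain ⟨p, k, hp, hk, hpk⟩ := (isPrimePow_nat_iff q).1 hq
    by_cases hpb : p ∣ b
    · -- exchange the two bases
      have hpa : ¬ p ∣ a := fun h => hp.not_dvd_one (hab ▸ Nat.dvd_gcd h hpb)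
      have hqa : Nat.Coprime q a := by
        rw [← hpk]
        exact Nat.Coprime.pow_left _ ((Nat.Prime.coprime_iff_not_dvd hp).2 hpa)
      have h := rep_card_cop (F := F.image Prod.swap) hb ha hab.symm hq hq3 hqa (by
        intro p hp
        rw [Finset.mem_image] at hp
        obtain ⟨p', hp', rfl⟩ := hp
        exact rep_swap (hF p' hp'))
      rw [Finset.card_image_of_injective _ Prod.swap_injective] at h
      have h3 : GG q a ≤ GG q (a * b) := GG_mono hq1 hab0 dvd_rfl (dvd_mul_right a b)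
      have h4 := Nat.mul_le_mul_left (500 * q) h3
      omega
    · have hqb : Nat.Coprime q b := by
        rw [← hpk]
        exact Nat.Coprime.pow_left _ ((Nat.Prime.coprime_iff_not_dvd hp).2 hpb)
      have h := rep_card_cop ha hb hab hq hq3 hqb F hF
      have h3 : GG q b ≤ GG q (a * b) := GG_mono hq1 hab0 dvd_rfl (dvd_mul_left b a)
      have h4 := Nat.mul_le_mul_left (500 * q) h3
      omega
  have hfin : (Rep a b q).Finite := by
    by_contra hinf
    obtain ⟨F, hF1, hF2⟩ := Set.Infinite.exists_subset_card_eq hinf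
      (10 ^ 6 * q ^ 2 + 500 * q * GG q (a * b) + 1)
    have := key F (fun p hp => hF1 (Finset.mem_coe.2 hp))
    omega
  refine ⟨hfin, ?_⟩
  rw [Set.ncard_eq_toFinset_card _ hfin]
  exact key _ (fun p hp => (Set.Finite.mem_toFinset hfin).1 hp)

end Pool.Agent.H42FC
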