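import Mathlib
import Pool.Agent.H42FC.Two
import Pool.Agent.Y353.PS.QB2
import Pool.Agent.H374R2.V.Final

/-!
Two given bases, all exponents `k ≥ 3` of the third base together.
-/

set_option autoImplicit false

namespace Pool.Agent.H42FC

open Finset Pool.Agent.H374R2.V

/-- The pairs of exponents `(x, y)` for which one of `a ^ x + b ^ y`, `b ^ y - a ^ x`, `a ^ x - b ^ y`
is a `k`-th power of a positive integer with `k ≥ 3`. -/
def Pow3 (a b : ℕ) : Set (ℕ × ℕ) :=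
  {p | 0 < p.1 ∧ 0 < p.2 ∧ ∃ c k : ℕ, 0 < c ∧ 3 ≤ k ∧
    (a ^ p.1 + b ^ p.2 = c ^ k ∨ a ^ p.1 + c ^ k = b ^ p.2 ∨ b ^ p.2 + c ^ k = a ^ p.1)}

theorem pow_log (m : ℕ) : (m + 1) ^ 4 ≤ 49 * 2 ^ m := by
  rcases Nat.lt_or_ge m 7 with h | h
  · interval_cases m <;> norm_num
  · induction m, h using Nat.le_induction with
    | base => norm_num
    | succ n hn ih =>
      have h1 : (n + 1 + 1) ^ 4 ≤ 2 * (n + 1) ^ 4 := by
        obtain ⟨k, rfl⟩ := Nat.exists_eq_add_of_le hn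
        nlinarith [sq_nonneg k, Nat.zero_le (k ^ 3), Nat.zero_le (k ^ 4), Nat.zero_le (k ^ 2)]
      calc (n + 1 + 1) ^ 4 ≤ 2 * (n + 1) ^ 4 := h1
        _ ≤ 2 * (49 * 2 ^ n) := Nat.mul_le_mul_left _ ih
        _ = 49 * 2 ^ (n + 1) := by ring

theorem q_le {q D : ℕ} (hq : 0 < q) (h : q ≤ D * (Nat.log 2 q + 1) ^ 2) : q ≤ 49 * D ^ 2 := by
  have h1 : 2 ^ Nat.log 2 q ≤ q := Nat.pow_log_le_self 2 (by omega)
  have h2 : (Nat.log 2 q + 1) ^ 4 ≤ 49 * q := (pow_log _).trans (Nat.mul_le_mul_left _ h1)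
  have h3 : q * q ≤ (49 * D ^ 2) * q := by
    calc q * q ≤ (D * (Nat.log 2 q + 1) ^ 2) * (D * (Nat.log 2 q + 1) ^ 2) := Nat.mul_le_mul h h
      _ = D ^ 2 * (Nat.log 2 q + 1) ^ 4 := by ring
      _ ≤ D ^ 2 * (49 * q) := Nat.mul_le_mul_left _ h2
      _ = (49 * D ^ 2) * q := by ring
  exact Nat.le_of_mul_le_mul_right h3 hq

/-- the bound for the exponent -/
def QQ (r M : ℕ) : ℕ := 49 * (10 ^ 9 * r ^ 2 * (Nat.log 2 M + 1) ^ 2) ^ 2

/-- The exponent is bounded if a prime `r` divides the second base. -/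
theorem q_bound_B {a b r q M x y U : ℕ} {s σ : ℤ} (hs : s = 1 ∨ s = -1) (hσ : σ = 1 ∨ σ = -1)
    (ha : 0 < a) (hb : 0 < b) (haM : a ≤ M) (hbM : b ≤ M)
    (hab : Nat.Coprime a b) (hr : r.Prime) (hrb : r ∣ b) (hq : q.Prime) (hq3 : 3 ≤ q)
    (hx : 0 < x) (hy : 0 < y) (hU : 2 ≤ U)
    (heq : (U : ℤ) ^ q - s * (a : ℤ) ^ x = σ * (b : ℤ) ^ y) : q ≤ QQ r M := by
  obtain ⟨x₂, hx2, hAx, hx1⟩ : ∃ x₂ : ℕ, 0 < x₂ ∧ a ^ x₂ = a ^ x ∧ (a = 1 → q ∣ x₂) := by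
    by_cases h1 : a = 1
    · exact ⟨q, by omega, by rw [h1]; simp, fun _ => dvd_rfl⟩
    · exact ⟨x, hx, rfl, fun h2 => absurd h2 h1⟩
  have heq2 : (U : ℤ) ^ q - s * (a : ℤ) ^ x₂ = σ * (b : ℤ) ^ y := by
    have : (a : ℤ) ^ x₂ = (a : ℤ) ^ x := by exact_mod_cast hAx
    rw [this]; exact heq
  have h := Pool.Agent.Y353.PS.q_bound (fun h1 h2 h3 h4 h5 h6 =>
    Pool.Agent.H374R2.W.real_two_logs h1 h2 h3 h4 h5 h6) hs hσ hq hq3 ha haM hab hb hbM hx2 hx1 hy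
    hU hr le_rfl hrb heq2
  apply q_le (by omega)
  calc q ≤ _ := h
    _ = _ := by ring

theorem q_bound_all {a b r q x y U : ℕ} {s σ : ℤ} (hs : s = 1 ∨ s = -1) (hσ : σ = 1 ∨ σ = -1)
    (ha : 0 < a) (hb : 0 < b)
    (hab : Nat.Coprime a b) (hr : r.Prime) (hrab : r ∣ a * b) (hq : q.Prime) (hq3 : 3 ≤ q)
    (hx : 0 < x) (hy : 0 < y) (hU : 2 ≤ U)
    (heq : (U : ℤ) ^ q - s * (a : ℤ) ^ x = σ * (b : ℤ) ^ y) : q ≤ QQ r (max a b) := by
  rcases (Nat.Prime.dvd_mul hr).1 hrab with h | h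
  · exact q_bound_B hσ hs hb ha (le_max_right _ _) (le_max_left _ _) hab.symm hr h hq hq3 hy hx hU
      (by linear_combination heq)
  · exact q_bound_B hs hσ ha hb (le_max_left _ _) (le_max_right _ _) hab hr h hq hq3 hx hy hU heq

theorem pow3_cover {a b r : ℕ} (ha : 2 ≤ a) (hb : 2 ≤ b) (hab : Nat.Coprime a b) (hr : r.Prime)
    (hrab : r ∣ a * b) {p : ℕ × ℕ} (hp : p ∈ Pow3 a b) :
    ∃ q : ℕ, IsPrimePow q ∧ 3 ≤ q ∧ q ≤ QQ r (max a b) ∧ p ∈ Rep a b q := by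
  obtain ⟨hx, hy, c, k, hc, hk, h⟩ := hp
  obtain ⟨q, U, hqp, hq3, hU0, hUq, hqU⟩ := exists_q hk hc
  have hrep : p ∈ Rep a b q := ⟨hx, hy, U, hU0, by rw [hUq]; exact h⟩
  refine ⟨q, hqp, hq3, ?_, hrep⟩
  rcases hqU with h4 | ⟨hqprime, hU2⟩
  · refine h4.trans ?_
    unfold QQ
    have h1 : 1 ≤ (10 ^ 9 * r ^ 2 * (Nat.log 2 (max a b) + 1) ^ 2) ^ 2 := by
      have := hr.pos
      exact Nat.one_le_pow _ _ (by positivity)
    omega
  · rcases h with h | h | h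
    · have h' : (a : ℤ) ^ p.1 + (b : ℤ) ^ p.2 = (U : ℤ) ^ q := by rw [← hUq] at h; exact_mod_cast h
      exact q_bound_all (s := 1) (σ := 1) (Or.inl rfl) (Or.inl rfl) (by omega) (by omega) hab hr hrab
        hqprime hq3 hx hy hU2 (by linear_combination -h')
    · have h' : (a : ℤ) ^ p.1 + (U : ℤ) ^ q = (b : ℤ) ^ p.2 := by rw [← hUq] at h; exact_mod_cast h
      exact q_bound_all (s := -1) (σ := 1) (Or.inr rfl) (Or.inl rfl) (by omega) (by omega) hab hr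
        hrab hqprime hq3 hx hy hU2 (by linear_combination h')
    · have h' : (b : ℤ) ^ p.2 + (U : ℤ) ^ q = (a : ℤ) ^ p.1 := by rw [← hUq] at h; exact_mod_cast h
      exact q_bound_all (s := 1) (σ := -1) (Or.inl rfl) (Or.inr rfl) (by omega) (by omega) hab hr
        hrab hqprime hq3 hx hy hU2 (by linear_combination h')

theorem QQ_le {a b r : ℕ} (ha : 2 ≤ a) (hb : 2 ≤ b) :
    ((QQ r (max a b) : ℕ) : ℝ) ≤ (2 * 10 ^ 5 * r * Real.log (a * b)) ^ 4 := by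
  have hab : (0 : ℝ) < (a : ℝ) * b := by positivity
  have hl : ((Nat.log 2 (max a b) + 1 : ℕ) : ℝ) ≤ 3 / 2 * Real.log (a * b) := by
    have h1 : 2 ^ (Nat.log 2 (max a b) + 1) ≤ a * b := by
      rw [pow_succ]
      have h2 : 2 ^ Nat.log 2 (max a b) ≤ max a b := Nat.pow_log_le_self 2 (by positivity)
      rcases max_cases a b with ⟨h3, _⟩ | ⟨h3, _⟩
      · rw [h3] at h2 ⊢
        exact Nat.mul_le_mul h2 hb
      · rw [h3] at h2 ⊢
        rw [mul_comm a b]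
        exact Nat.mul_le_mul h2 ha
    have h2 : (2 : ℝ) ^ (Nat.log 2 (max a b) + 1) ≤ (a : ℝ) * b := by exact_mod_cast h1
    have h3 := Real.log_le_log (by positivity) h2
    rw [Real.log_pow] at h3
    have h4 := Real.log_two_gt_d9
    have h5 : ((Nat.log 2 (max a b) + 1 : ℕ) : ℝ) * (2 / 3) ≤
        ((Nat.log 2 (max a b) + 1 : ℕ) : ℝ) * Real.log 2 :=
      mul_le_mul_of_nonneg_left (by linarith) (by positivity)
    linarith
  unfold QQ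
  have hr0 : (0 : ℝ) ≤ r := by positivity
  have hx0 : (0 : ℝ) ≤ ((Nat.log 2 (max a b) + 1 : ℕ) : ℝ) := by positivity
  have hL0 : (0 : ℝ) ≤ Real.log (a * b) := by linarith
  push_cast
  push_cast at hl hx0
  generalize ((Nat.log 2 (max a b) : ℝ) + 1) = X at *
  generalize Real.log ((a : ℝ) * b) = L at *
  have h1 : X ^ 4 ≤ (3 / 2 * L) ^ 4 := pow_le_pow_left₀ hx0 hl 4
  calc (49 : ℝ) * (1000000000 * r ^ 2 * X ^ 2) ^ 2 = 49 * 10 ^ 18 * r ^ 4 * X ^ 4 := by ring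
    _ ≤ 49 * 10 ^ 18 * r ^ 4 * (3 / 2 * L) ^ 4 := mul_le_mul_of_nonneg_left h1 (by positivity)
    _ = (49 * 10 ^ 18 * (3 / 2) ^ 4) * (r ^ 4 * L ^ 4) := by ring
    _ ≤ ((2 * 10 ^ 5) ^ 4) * (r ^ 4 * L ^ 4) := by
        apply mul_le_mul_of_nonneg_right _ (by positivity)
        norm_num
    _ = (2 * 10 ^ 5 * r * L) ^ 4 := by ring

/-- **Two given bases, all exponents `k ≥ 3` together.** -/
theorem pow3_main {a b r : ℕ} (ha : 2 ≤ a) (hb : 2 ≤ b) (hab : Nat.Coprime a b) (hr : r.Prime)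
    (hrab : r ∣ a * b) : (Pow3 a b).Finite ∧
      (Pow3 a b).ncard ≤ ∑ k ∈ Finset.Icc 3 ⌊(2 * 10 ^ 5 * r * Real.log (a * b)) ^ 4⌋₊,
        (10 ^ 6 * k ^ 2 + 500 * k * GG k (a * b)) := by
  classical
  set K : ℕ := ⌊(2 * 10 ^ 5 * r * Real.log (a * b)) ^ 4⌋₊ with hK
  have hQK : QQ r (max a b) ≤ K := Nat.le_floor (QQ_le ha hb)
  set J : Finset ℕ := (Finset.Icc 3 K).filter (fun q => IsPrimePow q) with hJ
  have hfin : ∀ q ∈ J, (Rep a b q).Finite := by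
    intro q hq
    rw [hJ, Finset.mem_filter, Finset.mem_Icc] at hq
    exact (rep_card ha hb hab hq.2 hq.1.1).1
  have hsub : Pow3 a b ⊆ ⋃ q ∈ J, Rep a b q := by
    intro p hp
    obtain ⟨q, h1, h2, h3, h4⟩ := pow3_cover ha hb hab hr hrab hp
    simp only [Set.mem_iUnion]
    refine ⟨q, ?_, h4⟩
    rw [hJ, Finset.mem_filter, Finset.mem_Icc]
    exact ⟨⟨h2, h3.trans hQK⟩, h1⟩
  have hU : (⋃ q ∈ J, Rep a b q).Finite := J.finite_toSet.biUnion hfin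
  refine ⟨hU.subset hsub, ?_⟩
  calc (Pow3 a b).ncard ≤ (⋃ q ∈ J, Rep a b q).ncard := Set.ncard_le_ncard hsub hU
    _ ≤ ∑ q ∈ J, (Rep a b q).ncard := Finset.set_ncard_biUnion_le _ _
    _ ≤ ∑ q ∈ J, (10 ^ 6 * q ^ 2 + 500 * q * GG q (a * b)) := by
        apply Finset.sum_le_sum
        intro q hq
        rw [hJ, Finset.mem_filter, Finset.mem_Icc] at hq
        exact (rep_card ha hb hab hq.2 hq.1.1).2
    _ ≤ ∑ k ∈ Finset.Icc 3 K, (10 ^ 6 * k ^ 2 + 500 * k * GG k (a * b)) :=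
        Finset.sum_le_sum_of_subset (Finset.filter_subset _ _)

/-- **Two given bases and a given exponent `k ≥ 3`.** -/
theorem repk_main {a b k : ℕ} (ha : 2 ≤ a) (hb : 2 ≤ b) (hab : Nat.Coprime a b) (hk : 3 ≤ k) :
    (Rep a b k).Finite ∧ (Rep a b k).ncard ≤ 10 ^ 6 * k ^ 2 + 500 * k * GG k (a * b) := by
  -- a prime power `q ≥ 3` dividing `k`
  obtain ⟨q, hqp, hq3, hqk⟩ : ∃ q : ℕ, IsPrimePow q ∧ 3 ≤ q ∧ q ∣ k := by
    rcases Nat.eq_two_pow_or_exists_odd_prime_and_dvd k with ⟨l, hl⟩ | ⟨q, hq, hqz, hodd⟩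
    · have hl2 : 2 ≤ l := by
        by_contra hcon
        have : l = 0 ∨ l = 1 := by omega
        rcases this with h | h <;> subst h <;> omega
      refine ⟨4, ?_, by norm_num, ?_⟩
      · rw [isPrimePow_nat_iff]
        exact ⟨2, 2, Nat.prime_two, by norm_num, by norm_num⟩
      · rw [hl]
        exact (pow_dvd_pow 2 hl2 : (2 : ℕ) ^ 2 ∣ 2 ^ l)
    · refine ⟨q, hq.isPrimePow, ?_, hqz⟩
      have := hq.two_le
      rcases Nat.lt_or_ge q 3 with h | h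
      · have : q = 2 := by omega
        subst this
        exact absurd hodd (by decide)
      · exact h
  have hk0 : 0 < k := by omega
  have hqk' : q ≤ k := Nat.le_of_dvd hk0 hqk
  have hG : GG q (a * b) ≤ GG k (a * b) := GG_mono hk0 (by positivity) hqk dvd_rfl
  have hsub : Rep a b k ⊆ Rep a b q := by
    rintro p ⟨h1, h2, U, hU, h⟩
    obtain ⟨m, rfl⟩ := hqk
    refine ⟨h1, h2, U ^ m, by positivity, ?_⟩
    rw [← pow_mul, mul_comm m q]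
    exact h
  obtain ⟨h1, h2⟩ := rep_card ha hb hab hqp hq3
  refine ⟨h1.subset hsub, (Set.ncard_le_ncard hsub h1).trans (h2.trans ?_)⟩
  gcongr

end Pool.Agent.H42FC
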