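import Mathlib
import Pool.Agent.H42FC.All

/-!
Few first bases, of any size up to `exp (N ^ δ)`: for almost all `B ≤ N` no number `A ^ x + B ^ y` or
`|A ^ x - B ^ y|` with `A` in the given set is a `z`-th power with `z ≥ 3`.
-/

set_option autoImplicit false

namespace Pool.Agent.H42FC

open Finset Filter Topology Pool.Agent.H374R2 Pool.Agent.H374R2.V

/-- The integers `B` in a solution with `A ∈ S` and a prime power exponent `q ≤ Q`. -/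
def BadA (N m Q D : ℕ) (S : Finset ℕ) : Set ℕ :=
  {B | ∃ (A q i d : ℕ) (s σ : ℤ), A ∈ S ∧ 0 < A ∧ IsPrimePow q ∧ 3 ≤ q ∧ q ≤ Q ∧ i < q ∧
    (s = 1 ∨ s = -1) ∧ (σ = 1 ∨ σ = -1) ∧ 0 < d ∧ d ≤ D ∧ d ≤ N ∧
    (∀ p : ℕ, p.Prime → p ∣ d → Fc.yy N m < p) ∧ N ^ 99 ≤ d ^ 100 ∧ B ∈ SolV N q i d A s σ}

theorem badA_card {N m Q D : ℕ} {S : Finset ℕ} (hm : 0 < m) (hN0 : 0 < N)
    (hN : (10000 * Q ^ 2) ^ 102 ≤ N) (hQ : Q ≤ Fc.yy N m) :
    (BadA N m Q D S).Finite ∧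
      (BadA N m Q D S).ncard ≤ (S.card * ((Q + 1) * ((Q + 1) * (D * 4)))) * (250 * Q ^ m) := by
  classical
  set J : Finset (ℕ × ℕ × ℕ × ℕ × ℤ × ℤ) := ((S.filter (fun A => 0 < A)) ×ˢ Finset.range (Q + 1) ×ˢ
    Finset.range (Q + 1) ×ˢ Finset.Icc 1 D ×ˢ ({1, -1} : Finset ℤ) ×ˢ
      ({1, -1} : Finset ℤ)).filter (fun j => IsPrimePow j.2.1 ∧ 3 ≤ j.2.1 ∧
      j.2.2.2.1 ≤ N ∧ (∀ p : ℕ, p.Prime → p ∣ j.2.2.2.1 → Fc.yy N m < p) ∧
      N ^ 99 ≤ j.2.2.2.1 ^ 100) with hJ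
  have hJc : J.card ≤ S.card * ((Q + 1) * ((Q + 1) * (D * 4))) := by
    refine (Finset.card_filter_le _ _).trans ?_
    rw [Finset.card_product, Finset.card_product, Finset.card_product, Finset.card_product,
      Finset.card_product, Finset.card_range, Nat.card_Icc, Nat.add_sub_cancel]
    exact Nat.mul_le_mul_right _ (Finset.card_filter_le _ _)
  have h := ncard_le_of_cover (K := 250 * Q ^ m) J
    (fun j => SolV N j.2.1 j.2.2.1 j.2.2.2.1 j.1 j.2.2.2.2.1 j.2.2.2.2.2) (by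
      rintro ⟨A, q, i, d, s, σ⟩ hj
      rw [hJ, Finset.mem_filter] at hj
      obtain ⟨hj1, hq, hq3, hdN, hdp, hd⟩ := hj
      simp only [Finset.mem_product, Finset.mem_range, Finset.mem_Icc, Finset.mem_insert,
        Finset.mem_singleton, Finset.mem_filter] at hj1
      simp only at hq hq3 hdN hdp hd
      obtain ⟨⟨hAS, hA0⟩, hqQ', hi, ⟨hd0, hdD⟩, hs, hσ⟩ := hj1
      have hqQ : q ≤ Q := by omega
      have hqN : (10000 * q ^ 2) ^ 102 ≤ N :=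
        (Nat.pow_le_pow_left (Nat.mul_le_mul_left _ (Nat.pow_le_pow_left hqQ 2)) 102).trans hN
      have hq0 : 0 < q := by omega
      have hqd : Nat.Coprime q d := by
        apply Nat.coprime_of_dvd
        intro p hp h2 h3
        have h4 := hdp p hp h3
        have h5 := Nat.le_of_dvd hq0 h2
        omega
      have h1 := CV.solV_card (N := N) (i := i) (A := A) hs hσ hq hq3 hqN hd hd0 hqd hA0
      refine ⟨h1.1, h1.2.trans ?_⟩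
      apply Nat.mul_le_mul_left
      calc q ^ d.primeFactors.card ≤ q ^ m :=
              Nat.pow_le_pow_right hq0 (Fc.primeFactors_card_le hm hN0 hd0 hdN hdp)
          _ ≤ Q ^ m := Nat.pow_le_pow_left hqQ m)
    (BadA N m Q D S) (by
      rintro B ⟨A, q, i, d, s, σ, hAS, hA0, hq, hq3, hqQ, hiq, hs, hσ, hd0, hdD, hdN, hdp, hd, hsol⟩
      refine ⟨(A, q, i, d, s, σ), ?_, hsol⟩
      rw [hJ, Finset.mem_filter]
      refine ⟨?_, hq, hq3, hdN, hdp, hd⟩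
      simp only [Finset.mem_product, Finset.mem_range, Finset.mem_Icc, Finset.mem_insert,
        Finset.mem_singleton, Finset.mem_filter]
      exact ⟨⟨hAS, hA0⟩, by omega, by omega, ⟨hd0, hdD⟩, hs, hσ⟩)
  exact ⟨h.1, h.2.trans (Nat.mul_le_mul_right _ hJc)⟩

/-- Solutions with typical `B` are in `BadA`. -/
theorem mem_badA {N m D P₀ Q M A B x y z C : ℕ} {S : Finset ℕ}
    (hQ : ∀ p : ℕ, p ≤ P₀ → QQ p M ≤ Q)
    (hQ4 : 4 ≤ Q) (hNM : N ≤ M) (hAS : A ∈ S) (hA0 : 0 < A) (hAM : A ≤ M) (hB0 : 0 < B)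
    (hBN : B ≤ N) (hAB : Nat.Coprime A B) (hB : Typ N m D P₀ B) (hx : 0 < x) (hy : 0 < y)
    (hz : 3 ≤ z) (hC : 0 < C)
    (h : A ^ x + B ^ y = C ^ z ∨ A ^ x + C ^ z = B ^ y ∨ B ^ y + C ^ z = A ^ x) :
    B ∈ BadA N m Q D S := by
  obtain ⟨d, hd0, hdB, hdD, hdp, hd⟩ := hB.rough
  obtain ⟨p, hpP, hp, hp3, hpB⟩ := hB.three
  obtain ⟨q, U, hqp, hq3, hU0, hUq, hqU⟩ := exists_q hz hC
  obtain ⟨s, σ, hs, hσ, heq⟩ : ∃ s σ : ℤ, (s = 1 ∨ s = -1) ∧ (σ = 1 ∨ σ = -1) ∧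
      (U : ℤ) ^ q - s * (A : ℤ) ^ x = σ * (B : ℤ) ^ y := by
    have e1 : (U : ℤ) ^ q = (C : ℤ) ^ z := by exact_mod_cast hUq
    rw [e1]
    rcases h with h | h | h
    · have h' : (A : ℤ) ^ x + (B : ℤ) ^ y = (C : ℤ) ^ z := by exact_mod_cast h
      exact ⟨1, 1, Or.inl rfl, Or.inl rfl, by rw [← h']; ring⟩
    · have h' : (A : ℤ) ^ x + (C : ℤ) ^ z = (B : ℤ) ^ y := by exact_mod_cast h
      exact ⟨-1, 1, Or.inr rfl, Or.inl rfl, by rw [← h']; ring⟩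
    · have h' : (B : ℤ) ^ y + (C : ℤ) ^ z = (A : ℤ) ^ x := by exact_mod_cast h
      exact ⟨1, -1, Or.inl rfl, Or.inr rfl, by rw [← h']; ring⟩
  have hqQ : q ≤ Q := by
    rcases hqU with h4 | ⟨hqprime, hU2⟩
    · omega
    · exact (q_bound_B hs hσ hA0 hB0 hAM (hBN.trans hNM) hAB hp hpB hqprime hq3 hx hy hU2 heq).trans
        (hQ p hpP)
  have hxq : q * (x / q) + x % q = x := Nat.div_add_mod x q
  refine ⟨A, q, x % q, d, s, σ, hAS, hA0, hqp, hq3, hqQ, Nat.mod_lt _ (by omega), hs, hσ, hd0, hdD,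
    (Nat.le_of_dvd hB0 hdB).trans hBN, hdp, hd, hB0, hBN, hdB, hAB, hB.np, x / q, y, U, hy, hU0, ?_⟩
  rw [hxq]
  exact heq

/-- The set of the `B ≤ N` occurring in a solution with some `A ∈ S`. -/
def AllA (N : ℕ) (S : Finset ℕ) : Set ℕ :=
  {B : ℕ | 0 < B ∧ B ≤ N ∧ ∃ A ∈ S, ∃ x y z C : ℕ, Nat.Coprime A B ∧
    0 < x ∧ 0 < y ∧ 3 ≤ z ∧ 0 < C ∧
    (A ^ x + B ^ y = C ^ z ∨ A ^ x + C ^ z = B ^ y ∨ B ^ y + C ^ z = A ^ x)}

theorem third : ∀ ε : ℝ, 0 < ε → ∃ δ : ℝ, 0 < δ ∧ ∃ N₀ : ℕ, ∀ N : ℕ, N₀ ≤ N → ∀ S : Finset ℕ,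
    (∀ A ∈ S, 0 < A ∧ (A : ℝ) ≤ Real.exp ((N : ℝ) ^ δ)) → (S.card : ℝ) ≤ (N : ℝ) ^ δ →
    ((AllA N S).ncard : ℝ) ≤ ε * N := by
  intro ε hε
  obtain ⟨m, hm, δ, hδ, N₁, hN₁⟩ := T.TaskD1.rough_divisor (ε := ε / 8) (η := 1 / 100) (by positivity)
    (by norm_num)
  obtain ⟨P₀, N₂, hN₂⟩ := Gc.three_prime (ε := ε / 8) (by positivity)
  obtain ⟨N₃, hN₃⟩ := T.TaskD2.perfect_powers (ε := ε / 8) (by positivity)
  have hmR : (0 : ℝ) < m := by exact_mod_cast hm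
  have hm1 : (1 : ℝ) ≤ m := by exact_mod_cast hm
  -- the exponent
  set c : ℝ := min (δ / (2 * (5 * m + 11))) (min (1 / (10 * m)) (1 / 4000)) with hc
  have hc0 : 0 < c := by
    rw [hc]
    refine lt_min (by positivity) (lt_min (by positivity) (by norm_num))
  have hc1 : c * (5 * m + 11) ≤ δ / 2 := by
    have h1 : c ≤ δ / (2 * (5 * m + 11)) := min_le_left _ _
    calc c * (5 * m + 11) ≤ δ / (2 * (5 * m + 11)) * (5 * m + 11) := by gcongr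
      _ = δ / 2 := by field_simp
  have hc2 : 5 * c ≤ 1 / m := by
    have h1 : c ≤ 1 / (10 * m) := (min_le_right _ _).trans (min_le_left _ _)
    calc 5 * c ≤ 5 * (1 / (10 * m)) := by gcongr
      _ = (5 / 10) * (1 / m) := by field_simp
      _ ≤ 1 * (1 / m) := by gcongr; norm_num
      _ = 1 / m := one_mul _
  have hc3 : c ≤ 1 / 4000 := (min_le_right _ _).trans (min_le_right _ _)
  refine ⟨c, hc0, ?_⟩
  have e1 := Gc.log_pow_le (k := 1) hc0 (show (0 : ℝ) < 1 by norm_num)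
  have e2 := Gc.log_pow_le (k := 0) (show (0 : ℝ) < 1 / 2 by norm_num)
    (show (0 : ℝ) < (10000 : ℝ) ^ 102 by positivity)
  have e3 := Gc.log_pow_le (k := 0) (show (0 : ℝ) < δ / 2 by positivity)
    (show (0 : ℝ) < 32000 / ε by positivity)
  have e4 := Gc.log_pow_le (k := 0) hc0
    (show (0 : ℝ) < 49 * 10 ^ 18 * 81 * ((P₀ : ℝ) + 1) ^ 4 by positivity)
  obtain ⟨N₆, hN₆⟩ := eventually_atTop.mp ((((e1.and e2).and e3).and e4).and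
    ((Gc.tendsto_log_nat.eventually (eventually_ge_atTop (1 : ℝ))).and
      (eventually_ge_atTop 2)))
  refine ⟨max N₁ (max N₂ (max N₃ N₆)), fun N hN S hS1 hS2 => ?_⟩
  simp only [max_le_iff] at hN
  obtain ⟨g1, g2, g3, g6⟩ := hN
  obtain ⟨⟨⟨⟨b1, b2⟩, b3⟩, b4⟩, b5, b6⟩ := hN₆ N g6
  rw [pow_zero, mul_one] at b2 b3 b4
  rw [pow_one, one_mul] at b1
  have hNpos : 0 < N := by omega
  have hNR : (0 : ℝ) < N := by exact_mod_cast hNpos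
  have hN1 : (1 : ℝ) ≤ N := by exact_mod_cast hNpos
  set X : ℝ := (N : ℝ) ^ c with hX
  have hX1 : 1 ≤ X := Real.one_le_rpow hN1 hc0.le
  -- the bound `M` for the bases
  set M : ℕ := ⌊Real.exp X⌋₊ with hM
  have hMle : (M : ℝ) ≤ Real.exp X := Nat.floor_le (Real.exp_pos _).le
  have hNM : N ≤ M := by
    apply Nat.le_floor
    rw [← Real.log_le_iff_le_exp hNR]
    exact b1
  have hM0 : 0 < M := lt_of_lt_of_le hNpos hNM
  have hlogM : ((Nat.log 2 M : ℕ) : ℝ) + 1 ≤ 3 * X := by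
    have e1 : (2 : ℝ) ^ (Nat.log 2 M) ≤ M := by exact_mod_cast Nat.pow_log_le_self 2 hM0.ne'
    have e2 := Real.log_le_log (by positivity) (e1.trans hMle)
    rw [Real.log_pow, Real.log_exp] at e2
    have e3 := Real.log_two_gt_d9
    have e4 : (Nat.log 2 M : ℝ) * (1 / 2) ≤ Nat.log 2 M * Real.log 2 := by
      apply mul_le_mul_of_nonneg_left _ (by positivity)
      linarith
    linarith
  -- parameters
  set Q : ℕ := ⌊(N : ℝ) ^ (5 * c)⌋₊ with hQ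
  have hX5 : X ^ 5 = (N : ℝ) ^ (5 * c) := by
    rw [hX, ← Real.rpow_natCast, ← Real.rpow_mul hNR.le]
    congr 1
    push_cast
    ring
  have hQle : (Q : ℝ) ≤ (N : ℝ) ^ (5 * c) := Nat.floor_le (Real.rpow_nonneg hNR.le _)
  have hQQ : ∀ p : ℕ, p ≤ P₀ → QQ p M ≤ Q := by
    intro p hp
    rw [hQ]
    apply Nat.le_floor
    rw [← hX5]
    unfold QQ
    push_cast
    have hpR : (p : ℝ) ≤ P₀ + 1 := by
      have : (p : ℝ) ≤ P₀ := by exact_mod_cast hp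
      linarith
    have hp0 : (0 : ℝ) ≤ p := by positivity
    have hl0 : (0 : ℝ) ≤ (Nat.log 2 M : ℝ) + 1 := by positivity
    calc (49 : ℝ) * (1000000000 * (p : ℝ) ^ 2 * ((Nat.log 2 M : ℝ) + 1) ^ 2) ^ 2
        = 49 * 10 ^ 18 * (p : ℝ) ^ 4 * ((Nat.log 2 M : ℝ) + 1) ^ 4 := by ring
      _ ≤ 49 * 10 ^ 18 * ((P₀ : ℝ) + 1) ^ 4 * (3 * X) ^ 4 := by gcongr
      _ = (49 * 10 ^ 18 * 81 * ((P₀ : ℝ) + 1) ^ 4) * X ^ 4 := by ring
      _ ≤ X * X ^ 4 := by gcongr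
      _ = X ^ 5 := by ring
  have hQ4 : 4 ≤ Q := by
    rw [hQ]
    apply Nat.le_floor
    rw [← hX5]
    have h1 : (4 : ℝ) ≤ 49 * 10 ^ 18 * 81 * ((P₀ : ℝ) + 1) ^ 4 := by
      have h2 : (1 : ℝ) ≤ ((P₀ : ℝ) + 1) ^ 4 := one_le_pow₀ (by linarith [show (0 : ℝ) ≤ P₀ by positivity])
      nlinarith
    have h3 : X ≤ X ^ 5 := le_self_pow₀ hX1 (by norm_num)
    push_cast
    linarith
  have hQyy : Q ≤ Fc.yy N m := by
    unfold Fc.yy
    apply Nat.le_floor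
    exact hQle.trans (Real.rpow_le_rpow_of_exponent_le hN1 hc2)
  have hQN : (10000 * Q ^ 2) ^ 102 ≤ N := by
    have : ((10000 * (Q : ℝ) ^ 2) ^ 102) ≤ N := by
      calc (10000 * (Q : ℝ) ^ 2) ^ 102 ≤ (10000 * ((N : ℝ) ^ (5 * c)) ^ 2) ^ 102 := by gcongr
        _ = 10000 ^ 102 * ((N : ℝ) ^ (5 * c)) ^ 204 := by
            rw [mul_pow, ← pow_mul]
        _ = 10000 ^ 102 * (N : ℝ) ^ (1020 * c) := by
            rw [← Real.rpow_natCast _ 204, ← Real.rpow_mul hNR.le]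
            congr 2
            push_cast
            ring
        _ ≤ (N : ℝ) ^ ((1 : ℝ) / 2) * (N : ℝ) ^ (1020 * c) := by gcongr
        _ = (N : ℝ) ^ ((1 : ℝ) / 2 + 1020 * c) := by rw [← Real.rpow_add hNR]
        _ ≤ (N : ℝ) ^ (1 : ℝ) := Real.rpow_le_rpow_of_exponent_le hN1 (by linarith)
        _ = N := Real.rpow_one _
    exact_mod_cast this
  set D : ℕ := ⌊(N : ℝ) ^ (1 - δ)⌋₊ with hD
  have hDle : (D : ℝ) ≤ (N : ℝ) ^ (1 - δ) := Nat.floor_le (Real.rpow_nonneg hNR.le _)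
  -- the pieces
  have k1 := hN₁ N g1
  have k2 := hN₂ N g2
  have k3 := hN₃ N g3
  obtain ⟨hBadfin, k6⟩ := badA_card (N := N) (m := m) (Q := Q) (D := D) (S := S) hm hNpos hQN hQyy
  set S' : Set ℕ := {B | 0 < B ∧ B ≤ N ∧ ¬ Typ N m D P₀ B} with hS'
  have hSfin : S'.Finite := (Set.finite_Icc 0 N).subset (fun B hB => ⟨Nat.zero_le _, hB.2.1⟩)
  set T1 : Set ℕ := {B : ℕ | 0 < B ∧ B ≤ N ∧ ¬ ∃ d : ℕ, 0 < d ∧ d ∣ B ∧
        (∀ p : ℕ, p.Prime → p ∣ d → Fc.yy N m < p) ∧ (N : ℝ) ^ (1 - 1 / 100 : ℝ) ≤ d ∧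
        (d : ℝ) ≤ (N : ℝ) ^ (1 - δ)} with hT1
  set T2 : Set ℕ := {B : ℕ | 0 < B ∧ B ≤ N ∧ ∀ p : ℕ, p ≤ P₀ → p.Prime → p % 4 = 3 → ¬ p ∣ B} with hT2
  set T3 : Set ℕ := {B : ℕ | 0 < B ∧ B ≤ N ∧ ∃ w k : ℕ, 2 ≤ k ∧ B = w ^ k} with hT3
  have hSsub : S' ⊆ T1 ∪ (T2 ∪ T3) := by
    rintro B ⟨hB0, hBN, hB⟩
    by_contra hcon
    simp only [Set.mem_union, not_or] at hcon
    obtain ⟨c1, c2, c3⟩ := hcon
    apply hB
    refine ⟨?_, ?_, ?_⟩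
    · have hr : ∃ d : ℕ, 0 < d ∧ d ∣ B ∧
        (∀ p : ℕ, p.Prime → p ∣ d → Fc.yy N m < p) ∧ (N : ℝ) ^ (1 - 1 / 100 : ℝ) ≤ d ∧
        (d : ℝ) ≤ (N : ℝ) ^ (1 - δ) := by
        by_contra hn
        exact c1 ⟨hB0, hBN, hn⟩
      obtain ⟨d, hd0, hdB, hdp, hd1, hd2⟩ := hr
      refine ⟨d, hd0, hdB, Nat.le_floor hd2, hdp, ?_⟩
      have h1 : ((N : ℝ) ^ (1 - 1 / 100 : ℝ)) ^ 100 = (N : ℝ) ^ 99 := by
        rw [← Real.rpow_natCast, ← Real.rpow_mul hNR.le, ← Real.rpow_natCast]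
        congr 1
        norm_num
      have h2 : (N : ℝ) ^ 99 ≤ (d : ℝ) ^ 100 := by
        rw [← h1]
        exact pow_le_pow_left₀ (Real.rpow_nonneg hNR.le _) hd1 100
      exact_mod_cast h2
    · by_contra hn
      apply c2
      refine ⟨hB0, hBN, fun p hp hpp hp2 hpB => hn ⟨p, hp, hpp, hp2, hpB⟩⟩
    · intro hn
      exact c3 ⟨hB0, hBN, hn⟩
  have hTfin : (T1 ∪ (T2 ∪ T3)).Finite := by
    apply (Set.finite_Icc 0 N).subset
    intro B hB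
    rcases hB with h | h | h <;> exact ⟨Nat.zero_le _, h.2.1⟩
  have hScard : (S'.ncard : ℝ) ≤ (3 * ε / 8) * N := by
    have h1 := Set.ncard_le_ncard hSsub hTfin
    have h2 := Set.ncard_union_le T1 (T2 ∪ T3)
    have h3 := Set.ncard_union_le T2 T3
    have h6 : S'.ncard ≤ T1.ncard + (T2.ncard + T3.ncard) := by omega
    have h7 : (S'.ncard : ℝ) ≤ T1.ncard + (T2.ncard + T3.ncard) := by exact_mod_cast h6
    linarith
  -- the count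
  have k6R : ((BadA N m Q D S).ncard : ℝ) ≤ ε / 8 * N := by
    have h1 : ((BadA N m Q D S).ncard : ℝ) ≤
        ((S.card : ℝ) * (((Q : ℝ) + 1) * (((Q : ℝ) + 1) * (D * 4)))) * (250 * (Q : ℝ) ^ m) := by
      exact_mod_cast k6
    have hY1 : (1 : ℝ) ≤ (N : ℝ) ^ (5 * c) := Real.one_le_rpow hN1 (by positivity)
    have hQ1 : (Q : ℝ) + 1 ≤ 2 * (N : ℝ) ^ (5 * c) := by linarith
    have hpow : (N : ℝ) ^ c * (((N : ℝ) ^ (5 * c)) ^ 2 * ((N : ℝ) ^ (5 * c)) ^ m) ≤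
        (N : ℝ) ^ (δ / 2) := by
      rw [← Real.rpow_natCast _ 2, ← Real.rpow_natCast _ m, ← Real.rpow_mul hNR.le,
        ← Real.rpow_mul hNR.le, ← Real.rpow_add hNR, ← Real.rpow_add hNR]
      apply Real.rpow_le_rpow_of_exponent_le hN1
      push_cast
      nlinarith
    calc ((BadA N m Q D S).ncard : ℝ) ≤ _ := h1
      _ ≤ ((N : ℝ) ^ c * ((2 * (N : ℝ) ^ (5 * c)) * ((2 * (N : ℝ) ^ (5 * c)) *
            ((N : ℝ) ^ (1 - δ) * 4)))) * (250 * ((N : ℝ) ^ (5 * c)) ^ m) := by gcongr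
      _ = 4000 * (((N : ℝ) ^ c * (((N : ℝ) ^ (5 * c)) ^ 2 * ((N : ℝ) ^ (5 * c)) ^ m)) *
            (N : ℝ) ^ (1 - δ)) := by ring
      _ ≤ 4000 * ((N : ℝ) ^ (δ / 2) * (N : ℝ) ^ (1 - δ)) := by gcongr
      _ = (ε / 8) * ((32000 / ε) * ((N : ℝ) ^ (δ / 2) * (N : ℝ) ^ (1 - δ))) := by
          field_simp
          ring
      _ ≤ (ε / 8) * ((N : ℝ) ^ (δ / 2) * ((N : ℝ) ^ (δ / 2) * (N : ℝ) ^ (1 - δ))) := by gcongr
      _ = ε / 8 * N := by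
          rw [← Real.rpow_add hNR, ← Real.rpow_add hNR]
          have : δ / 2 + (δ / 2 + (1 - δ)) = 1 := by ring
          rw [this, Real.rpow_one]
  have hsub : AllA N S ⊆ S' ∪ BadA N m Q D S := by
    rintro B ⟨hB0, hBN, A, hAS, x, y, z, C, hAB, hx, hy, hz, hC, h⟩
    obtain ⟨hA0, hAexp⟩ := hS1 A hAS
    by_cases hB : Typ N m D P₀ B
    · right
      exact mem_badA (M := M) hQQ hQ4 hNM hAS hA0 (Nat.le_floor hAexp) hB0 hBN hAB hB hx hy hz hC h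
    · left
      exact ⟨hB0, hBN, hB⟩
  have h1 := Set.ncard_le_ncard hsub (hSfin.union hBadfin)
  have h2 := Set.ncard_union_le S' (BadA N m Q D S)
  have h3 : ((AllA N S).ncard : ℝ) ≤ S'.ncard + (BadA N m Q D S).ncard := by
    exact_mod_cast h1.trans h2
  have h4 : 0 ≤ ε * N := by positivity
  linarith

end Pool.Agent.H42FC
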